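import Pool.Agent.H36.SZ.LoH
import Pool.Agent.H36.SZ.P2

/-!
# Coefficient bounds near the extremal function

`IsSig.re_coeff`: `|Re b_n| <= n^2 (1 - Re b_1)` for every function of the class Sigma.
`IsSig.re_b3`: `Re b_3 <= (1 - β^2) / 2` if `b_1 = β` is real.
-/

open Complex MeasureTheory Set Filter Topology
open scoped ComplexConjugate Real

namespace Pool.Agent.H46.RD

open Pool.Agent.H15.Sig Pool.Agent.H36.SZ

variable {F : ℂ → ℂ} {b : ℕ → ℂ} {q : ℝ}

theorem abs_sin_nat_mul (n : ℕ) (x : ℝ) : |Real.sin (n * x)| ≤ n * |Real.sin x| := by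
  induction n with
  | zero => simp
  | succ k ih =>
    have e : ((k + 1 : ℕ) : ℝ) * x = k * x + x := by push_cast; ring
    rw [e, Real.sin_add]
    have h1 : |Real.sin (k * x) * Real.cos x| ≤ |Real.sin (k * x)| := by
      rw [abs_mul]
      exact mul_le_of_le_one_right (abs_nonneg _) (Real.abs_cos_le_one _)
    have h2 : |Real.cos (k * x) * Real.sin x| ≤ |Real.sin x| := by
      rw [abs_mul]
      exact mul_le_of_le_one_left (abs_nonneg _) (Real.abs_cos_le_one _)
    have h3 := abs_add_le (Real.sin (k * x) * Real.cos x) (Real.cos (k * x) * Real.sin x)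
    push_cast
    linarith

/-- the coefficient bound for functions univalent across the unit circle -/
theorem Sg.re_coeff (h : Sg F b q) {n : ℕ} (hn : 2 ≤ n) :
    |(b n).re| ≤ (n : ℝ) ^ 2 * (1 - (b 1).re) := by
  have hn0 : (0 : ℝ) < n := by exact_mod_cast (by omega : 0 < n)
  have h1 := h.hb_sin (m := n) (by omega)
  have h2 := h.hb_sin (m := 1) le_rfl
  have hc := h.hb_cont
  rw [if_neg (by omega), zero_sub] at h1
  rw [if_pos rfl] at h2
  simp only [Nat.cast_one, one_mul, div_one] at h2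
  have hpi := Real.pi_pos
  have h3 : |∫ β in (0 : ℝ)..π, hb b β * Real.sin (n * β)| ≤
      ∫ β in (0 : ℝ)..π, n * (hb b β * Real.sin β) := by
    refine (intervalIntegral.abs_integral_le_integral_abs hpi.le).trans ?_
    refine intervalIntegral.integral_mono_on hpi.le ?_ ?_ ?_
    · exact (hc.mul (by fun_prop)).abs.intervalIntegrable _ _
    · exact ((hc.mul Real.continuous_sin).const_mul _).intervalIntegrable _ _
    · intro β hβ
      have h4 : 0 ≤ hb b β := h.hb_nonneg hβ.1 hβ.2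
      have h5 : 0 ≤ Real.sin β := Real.sin_nonneg_of_nonneg_of_le_pi hβ.1 hβ.2
      have h6 := abs_sin_nat_mul n β
      rw [abs_of_nonneg h5] at h6
      rw [abs_mul, abs_of_nonneg h4]
      calc hb b β * |Real.sin (n * β)| ≤ hb b β * (n * Real.sin β) :=
            mul_le_mul_of_nonneg_left h6 h4
        _ = n * (hb b β * Real.sin β) := by ring
  rw [intervalIntegral.integral_const_mul, h1, h2, abs_mul, abs_of_pos (by positivity), abs_neg,
    abs_div, abs_of_pos hn0] at h3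
  have h4 : |(b n).re| / n ≤ n * (1 - (b 1).re) := by
    have h5 : π / 2 * (|(b n).re| / n) ≤ π / 2 * (n * (1 - (b 1).re)) := by linarith
    exact le_of_mul_le_mul_left h5 (by positivity)
  rw [div_le_iff₀ hn0] at h4
  nlinarith

/-- `|Re b_n| <= n^2 (1 - Re b_1)` for every function of the class Sigma -/
theorem IsSig.re_coeff (h : IsSig F b) {n : ℕ} (hn : 2 ≤ n) :
    |(b n).re| ≤ (n : ℝ) ^ 2 * (1 - (b 1).re) := by
  have hl : Tendsto (fun p : ℝ => |(b n).re * (p⁻¹) ^ (n + 1)|) (𝓝[>] 1)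
      (𝓝 (|(b n).re * ((1 : ℝ)⁻¹) ^ (n + 1)|)) := by
    have h1 : ContinuousAt (fun p : ℝ => |(b n).re * (p⁻¹) ^ (n + 1)|) 1 := by
      have h2 : ContinuousAt (fun p : ℝ => p⁻¹) 1 := continuousAt_inv₀ one_ne_zero
      exact ((h2.pow _).const_mul _).abs
    exact h1.tendsto.mono_left nhdsWithin_le_nhds
  have hr : Tendsto (fun p : ℝ => (n : ℝ) ^ 2 * (1 - (b 1).re * (p⁻¹) ^ 2)) (𝓝[>] 1)
      (𝓝 ((n : ℝ) ^ 2 * (1 - (b 1).re * ((1 : ℝ)⁻¹) ^ 2))) := by
    have h1 : ContinuousAt (fun p : ℝ => (n : ℝ) ^ 2 * (1 - (b 1).re * (p⁻¹) ^ 2)) 1 := by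
      have h2 : ContinuousAt (fun p : ℝ => p⁻¹) 1 := continuousAt_inv₀ one_ne_zero
      exact (((h2.pow _).const_mul _).const_sub _).const_mul _
    exact h1.tendsto.mono_left nhdsWithin_le_nhds
  have h5 := le_of_tendsto_of_tendsto hl hr (by
    filter_upwards [self_mem_nhdsWithin] with p hp
    have hd := Sg.re_coeff (dil h hp) hn
    have e : ∀ k : ℕ, (b k * ((p : ℂ)⁻¹) ^ (k + 1)).re = (b k).re * (p⁻¹) ^ (k + 1) := by
      intro k
      have e1 : ((p : ℂ)⁻¹) ^ (k + 1) = (((p⁻¹) ^ (k + 1) : ℝ) : ℂ) := by push_cast; ring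
      rw [e1, re_mul_ofReal]
    rw [e, e] at hd
    exact hd)
  simpa using h5

/-- an upper bound for `Re b_3` -/
theorem IsSig.re_b3 (h : IsSig F b) {β : ℝ} (hb : b 1 = (β : ℂ)) :
    (b 3).re ≤ (1 - β ^ 2) / 2 := by
  have h1 := isSig_p2 h
  have e : (b 1 ^ 2).re = β ^ 2 := by rw [hb, ← ofReal_pow, ofReal_re]
  rw [e] at h1
  nlinarith [sq_nonneg ‖b 2‖, sq_nonneg ‖b 4 + b 1 * b 2‖]

end Pool.Agent.H46.RD
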