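import Pool.Agent.H46.RD.Cb

/-!
# Orders below two: basic facts on the circle `|z| = e^t`, `t > 0`
-/

open Complex MeasureTheory Set Filter Topology
open scoped ComplexConjugate Real

namespace Pool.Agent.H46.RD

open Pool.Agent.H15.Sig Pool.Agent.H36.SZ

variable {F : ℂ → ℂ} {b : ℕ → ℂ}

theorem an1 (h : IsSig F b) : An F 1 :=
  ⟨zero_le_one, fun _ hz => (h.differentiableAt hz).differentiableWithinAt⟩

theorem one_lt_exp {t : ℝ} (ht : 0 < t) : 1 < Real.exp t := Real.one_lt_exp_iff.2 ht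

theorem G_dil (F : ℂ → ℂ) (s t θ : ℝ) :
    G (fun z => F ((Real.exp s : ℝ) * z) / (Real.exp s : ℝ)) (t - s) θ =
      G F t θ / (Real.exp s : ℝ) := by
  unfold G
  simp only
  congr 2
  rw [Complex.ofReal_exp, ← Complex.exp_add]
  congr 1
  push_cast
  ring

/-- the convex order inequality for all functions of the class Sigma -/
theorem co1 (h : IsSig F b) {t : ℝ} (ht : 0 < t) {B : Set ℝ}
    (mB : MeasurableSet B) (hB : B ⊆ Ioc (-π) π) :
    ‖∫ θ in B, G F t θ‖ ≤ 4 * Real.cosh t * Real.sin (volume.real B / 2) := by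
  have hc : Continuous fun s : ℝ => Real.exp s *
      (4 * Real.cosh (t - s) * Real.sin (volume.real B / 2)) := by fun_prop
  have hl : Tendsto (fun s : ℝ => Real.exp s *
      (4 * Real.cosh (t - s) * Real.sin (volume.real B / 2))) (𝓝[>] 0)
      (𝓝 (4 * Real.cosh t * Real.sin (volume.real B / 2))) := by
    have h1 := (hc.tendsto 0).mono_left (nhdsWithin_le_nhds (s := Ioi (0:ℝ)))
    simpa using h1
  refine ge_of_tendsto hl ?_
  filter_upwards [Ioo_mem_nhdsGT ht] with s hs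
  have hp : 1 < Real.exp s := one_lt_exp hs.1
  have h1 := (dil h hp).co (t := t - s) (by linarith [hs.2]) mB hB
  simp_rw [G_dil] at h1
  rw [integral_div, norm_div, Complex.norm_real, Real.norm_of_nonneg (Real.exp_pos s).le,
    div_le_iff₀ (Real.exp_pos s)] at h1
  linarith

/-- `F z - z` is bounded for `|z| >= e^s` -/
theorem asy1 (h : IsSig F b) {s : ℝ} (hs : 0 < s) : ∃ C : ℝ, 0 ≤ C ∧ ∀ t θ : ℝ, s ≤ t →
    ‖G F t θ - exp (t + θ * I)‖ ≤ C := by
  obtain ⟨C, hC, h1⟩ := (dil h (one_lt_exp hs)).asy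
  refine ⟨Real.exp s * C, by positivity, fun t θ ht => ?_⟩
  have h2 := h1 (t - s) θ (by linarith)
  rw [G_dil] at h2
  have e : G F t θ / (Real.exp s : ℝ) - exp (((t - s : ℝ) : ℂ) + θ * I) =
      (G F t θ - exp (t + θ * I)) / (Real.exp s : ℝ) := by
    have e1 : exp (((t - s : ℝ) : ℂ) + θ * I) = exp (t + θ * I) / (Real.exp s : ℝ) := by
      rw [Complex.ofReal_exp, ← Complex.exp_sub]
      congr 1
      push_cast
      ring
    rw [e1, sub_div]
  rw [e, norm_div, Complex.norm_real, Real.norm_of_nonneg (Real.exp_pos s).le,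
    div_le_iff₀ (Real.exp_pos s)] at h2
  have h3 : Real.exp (-(t - s)) ≤ 1 := Real.exp_le_one_iff.2 (by linarith)
  calc ‖G F t θ - exp (t + θ * I)‖ ≤ C * Real.exp (-(t - s)) * Real.exp s := h2
    _ ≤ C * 1 * Real.exp s := by gcongr
    _ = Real.exp s * C := by ring

/-- differentiation under the integral sign -/
theorem dint {f f' : ℝ → ℝ → ℝ} {t0 : ℝ} (hf : ∀ t, t0 < t → Continuous (f t))
    (hf' : ContinuousOn (fun p : ℝ × ℝ => f' p.1 p.2) {p | t0 < p.1})
    (hd : ∀ t θ, t0 < t → HasDerivAt (fun τ => f τ θ) (f' t θ) t) {a c t : ℝ} (ht : t0 < t) :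
    HasDerivAt (fun τ => ∫ θ in a..c, f τ θ) (∫ θ in a..c, f' t θ) t := by
  obtain ⟨δ, hδ0, hδ⟩ : ∃ δ : ℝ, 0 < δ ∧ t0 < t - δ := ⟨(t - t0) / 2, by linarith, by linarith⟩
  have hK : IsCompact (Icc (t - δ) (t + δ) ×ˢ uIcc a c) := isCompact_Icc.prod isCompact_uIcc
  have hsub : Icc (t - δ) (t + δ) ×ˢ uIcc a c ⊆ {p : ℝ × ℝ | t0 < p.1} := by
    rintro ⟨p1, p2⟩ ⟨h1, _⟩
    exact lt_of_lt_of_le hδ h1.1
  obtain ⟨M, hM⟩ := hK.exists_bound_of_continuousOn (hf'.mono hsub)
  have hball : Metric.ball t δ ⊆ Ioi t0 := by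
    intro s hs
    rw [Metric.mem_ball, Real.dist_eq, abs_lt] at hs
    exact lt_trans hδ (by linarith [hs.1])
  have hrow : ∀ s, t0 < s → Continuous (f' s) := by
    intro s hs
    have h1 : Continuous fun θ : ℝ => ((s, θ) : ℝ × ℝ) := by fun_prop
    exact hf'.comp_continuous h1 fun θ => hs
  refine (intervalIntegral.hasDerivAt_integral_of_dominated_loc_of_deriv_le
    (F := f) (F' := f') (bound := fun _ => M) (s := Metric.ball t δ)
    (Metric.ball_mem_nhds t hδ0) ?_ ?_ ?_ ?_ ?_ ?_).2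
  · filter_upwards [Ioi_mem_nhds ht] with s hs
    exact (hf s hs).aestronglyMeasurable
  · exact (hf t ht).intervalIntegrable _ _
  · exact (hrow t ht).aestronglyMeasurable
  · refine Eventually.of_forall fun θ hθ s hs => ?_
    have h1 := hM (s, θ) ⟨?_, uIoc_subset_uIcc hθ⟩
    · exact h1
    · rw [Metric.mem_ball, Real.dist_eq, abs_lt] at hs
      exact ⟨by linarith [hs.1], by linarith [hs.2]⟩
  · exact intervalIntegrable_const
  · refine Eventually.of_forall fun θ _ s hs => ?_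
    exact hd s θ (hball hs)

end Pool.Agent.H46.RD
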