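import Pool.Agent.H46.RD.Qb
import Pool.Agent.H15.Sig.Small

/-!
# Orders below two: the comparison of the moments
-/

open Complex MeasureTheory Set Filter Topology
open scoped ComplexConjugate Real

namespace Pool.Agent.H46.RD

open Pool.Agent.H15.Sig Pool.Agent.H36.SZ

variable {F : ℂ → ℂ} {b : ℕ → ℂ} {β : ℝ}

/-- `rho |F|^2` -/
noncomputable def nF (b : ℕ → ℂ) (t θ : ℝ) : ℝ :=
  ‖1 + ((Real.exp (-t) : ℝ) * ec θ) * pw b ((Real.exp (-t) : ℝ) * ec θ)‖ ^ 2

theorem norm_G (h : IsSig F b) {t : ℝ} (ht : 0 < t) (θ : ℝ) :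
    nF b t θ = Real.exp (-2 * t) * ‖G F t θ‖ ^ 2 := by
  set x : ℝ := Real.exp (-t) with hx
  have hx0 : 0 < x := Real.exp_pos _
  have e : ((x : ℂ) * ec θ) * G F t θ =
      1 + ((x : ℂ) * ec θ) * pw b ((x : ℂ) * ec θ) := by
    rw [G_eq h ht θ, mul_add]
    congr 1
    unfold ec
    rw [hx, Complex.ofReal_exp, ← Complex.exp_add, ← Complex.exp_add]
    rw [← Complex.exp_zero]
    congr 1
    push_cast
    ring
  have hx2 : Real.exp (-2 * t) = x ^ 2 := by
    rw [hx, ← Real.exp_nat_mul]; congr 1; push_cast; ring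
  unfold nF
  rw [← hx, ← e, norm_mul, norm_mul_ec hx0.le, mul_pow, hx2]

theorem norm_J (t θ : ℝ) : wn t θ = Real.exp (-2 * t) * ‖G J t θ‖ ^ 2 := by
  have hJ : G J t θ = ((2 * Real.cosh t * Real.cos θ : ℝ) : ℂ) +
      ((2 * Real.sinh t * Real.sin θ : ℝ) : ℂ) * I := by
    rw [G_J]; push_cast; ring
  have e1 : ‖G J t θ‖ ^ 2 = (2 * Real.cosh t * Real.cos θ) ^ 2 +
      (2 * Real.sinh t * Real.sin θ) ^ 2 := by
    rw [hJ, ← normSq_eq_norm_sq, normSq_add_mul_I]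
  have hx2 : Real.exp (-2 * t) = Real.exp (-t) ^ 2 := by
    rw [← Real.exp_nat_mul]; congr 1; push_cast; ring
  have e6 : Real.exp t * Real.exp (-t) = 1 := by rw [← Real.exp_add]; simp
  have e7 := Real.sin_sq_add_cos_sq θ
  rw [e1, Real.cosh_eq, Real.sinh_eq]
  unfold wn
  rw [Real.cos_two_mul, hx2]
  generalize Real.exp (-t) = E at e6 ⊢
  generalize Real.exp t = T at e6 ⊢
  generalize Real.cos θ = c at e7 ⊢
  generalize Real.sin θ = σ at e7 ⊢
  have e8 : σ ^ 2 = 1 - c ^ 2 := by linarith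
  have e9 : E ^ 2 * T ^ 2 = 1 := by
    have : E ^ 2 * T ^ 2 = (T * E) ^ 2 := by ring
    rw [this, e6]; ring
  have e10 : E ^ 2 * ((2 * ((T + E) / 2) * c) ^ 2 + (2 * ((T - E) / 2) * σ) ^ 2) =
      (E ^ 2 * T ^ 2) * (c ^ 2 + σ ^ 2) + 2 * (T * E) * E ^ 2 * (c ^ 2 - σ ^ 2) +
        E ^ 4 * (c ^ 2 + σ ^ 2) := by ring
  rw [e10, e9, e6, e8]
  ring

theorem nF_cont (h : IsSig F b) {t : ℝ} (ht : 0 < t) : Continuous (nF b t) := by
  have h1 : Continuous fun θ : ℝ => Real.exp (-2 * t) * ‖G F t θ‖ ^ 2 :=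
    continuous_const.mul ((cG h ht).norm.pow 2)
  exact h1.congr fun θ => (norm_G h ht θ).symm

theorem int_wn_pow {t : ℝ} (ht : 0 < t) (p : ℝ) :
    ∫ θ in (-π)..π, wn t θ ^ p = Mo p (Real.exp (-2 * t)) := by
  have hρ0 := R_pos t
  have hρ1 := R_lt ht
  have hper : Function.Periodic (fun ψ => w1 (Real.exp (-2 * t)) ψ ^ p) (2 * π) := by
    intro ψ
    simp only [w1, Real.cos_add_two_pi]
  have h1 := integral_two_mul hper (w1_cont hρ0.le hρ1 p)
  have h2 : ∫ θ in (-π)..π, wn t θ ^ p =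
      ∫ θ in (-π)..π, w1 (Real.exp (-2 * t)) (2 * θ) ^ p :=
    intervalIntegral.integral_congr fun θ _ => by simp only [wn_eq]
  rw [h2, h1]
  rfl

/-- the main comparison -/
theorem wp_core (h : Nrm F b β) {s t : ℝ} (hs : 0 ≤ s) (hs1 : s ≤ 1 / 2) (ht : 0 < t) :
    ∫ θ in (-π)..π, nF b t θ ^ (1 - s) ≤ Mo (1 - s) (Real.exp (-2 * t)) +
      (1 - s) * (2 * π) * Real.exp (-2 * t) ^ 2 * (1 - β) *
        ((2 * π)⁻¹ * Mo (-(2 * s)) (Real.exp (-2 * t)) * (1 - β) +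
          Real.exp (-2 * t) * ((1 + (2 * π)⁻¹ * Mo (-(2 * s)) (Real.exp (-2 * t))) / 4) * (1 + β) -
          2 * (1 - 2 * s) * ((1 + Real.exp (-2 * t)) ^ 2) ^ (-s)) := by
  have hpi := Real.pi_pos
  set ρ : ℝ := Real.exp (-2 * t) with hρ
  have hρ0 : 0 < ρ := Real.exp_pos _
  have hρ1 : ρ < 1 := R_lt ht
  set Q : ℝ := (2 * π)⁻¹ * Mo (-(2 * s)) ρ with hQ
  have hcJ : Continuous (G J t) := an_J.cGt (Real.exp_pos t)
  have hcF := cG h.sig ht
  have hcN := nF_cont h.sig ht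
  have hN0 : ∀ θ, 0 ≤ nF b t θ := fun θ => by unfold nF; positivity
  have hc1 : Continuous fun θ : ℝ => nF b t θ ^ (1 - s) :=
    hcN.rpow_const fun θ => Or.inr (by linarith)
  have hw := wq_cont ht (-s)
  have hcL : Continuous fun θ : ℝ => wn t θ ^ (-s) *
      (2 * (conj (G J t θ) * (G F t θ - G J t θ)).re) :=
    hw.mul (continuous_const.mul (Complex.continuous_re.comp
      ((continuous_conj.comp hcJ).mul (hcF.sub hcJ))))
  have hcQ : Continuous fun θ : ℝ => wn t θ ^ (-s) * ‖G F t θ - G J t θ‖ ^ 2 :=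
    hw.mul ((hcF.sub hcJ).norm.pow 2)
  -- tangent inequality
  have hpt : ∀ θ : ℝ, nF b t θ ^ (1 - s) ≤ wn t θ ^ (1 - s) + (1 - s) * ρ *
      (wn t θ ^ (-s) * (2 * (conj (G J t θ) * (G F t θ - G J t θ)).re) +
        wn t θ ^ (-s) * ‖G F t θ - G J t θ‖ ^ 2) := by
    intro θ
    have h1 := rpow_tangent (hN0 θ) (wn_pos ht θ) (p := 1 - s) (by linarith) (by linarith)
    rw [show (1 - s - 1 : ℝ) = -s by ring] at h1
    have h2 : nF b t θ - wn t θ = ρ * (2 * (conj (G J t θ) * (G F t θ - G J t θ)).re +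
        ‖G F t θ - G J t θ‖ ^ 2) := by
      rw [norm_G h.sig ht, norm_J, ← hρ, ← mul_sub]
      congr 1
      have h3 : G F t θ = G J t θ + (G F t θ - G J t θ) := by ring
      have h4 : ‖G J t θ + (G F t θ - G J t θ)‖ ^ 2 = ‖G J t θ‖ ^ 2 +
          ‖G F t θ - G J t θ‖ ^ 2 + 2 * (conj (G J t θ) * (G F t θ - G J t θ)).re := by
        rw [← normSq_eq_norm_sq, ← normSq_eq_norm_sq, ← normSq_eq_norm_sq, normSq_add]
        congr 2
        rw [← conj_re]
        congr 1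
        rw [map_mul, Complex.conj_conj]
      rw [← h3] at h4
      linarith
    rw [h2] at h1
    linarith
  have hi : ∀ g : ℝ → ℝ, Continuous g → IntervalIntegrable g volume (-π) π :=
    fun g hg => hg.intervalIntegrable _ _
  have hcw : Continuous fun θ : ℝ => wn t θ ^ (1 - s) := wq_cont ht _
  have hle : (-π) ≤ π := by linarith
  have h1 : ∫ θ in (-π)..π, nF b t θ ^ (1 - s) ≤ ∫ θ in (-π)..π, (wn t θ ^ (1 - s) +
      (1 - s) * ρ * (wn t θ ^ (-s) * (2 * (conj (G J t θ) * (G F t θ - G J t θ)).re) +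
        wn t θ ^ (-s) * ‖G F t θ - G J t θ‖ ^ 2)) :=
    intervalIntegral.integral_mono_on hle (hi _ hc1)
      (hi _ (hcw.add (continuous_const.mul (hcL.add hcQ)))) fun θ _ => hpt θ
  have j1 : IntervalIntegrable (fun θ => (1 - s) * ρ *
      (wn t θ ^ (-s) * (2 * (conj (G J t θ) * (G F t θ - G J t θ)).re) +
        wn t θ ^ (-s) * ‖G F t θ - G J t θ‖ ^ 2)) volume (-π) π :=
    hi _ (continuous_const.mul (hcL.add hcQ))
  rw [intervalIntegral.integral_add (hi _ hcw) j1, intervalIntegral.integral_const_mul,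
    intervalIntegral.integral_add (hi _ hcL) (hi _ hcQ), int_wn_pow ht] at h1
  -- the linear term
  have h2 := lin_le h.sig hs ht
  have hE := Real.exp_pos (-t)
  have hx2 : Real.exp (-t) * Real.exp (-t) = ρ := by
    rw [hρ, ← Real.exp_add]; congr 1; ring
  have h3 : ((1 + ρ) ^ 2) ^ (-s) * (∫ β in (0:ℝ)..π, hf F t β * Real.sin β) ≤
      ∫ β in (0:ℝ)..π, hf F t β * (Real.sin β * wn t β ^ (-s)) := by
    rw [← intervalIntegral.integral_const_mul]
    have hhf := hf_cont h.sig ht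
    refine intervalIntegral.integral_mono_on hpi.le
      ((continuous_const.mul (hhf.mul Real.continuous_sin)).intervalIntegrable _ _)
      ((hhf.mul (Real.continuous_sin.mul hw)).intervalIntegrable _ _) fun β hβ => ?_
    have h4 := hf_nonneg h.sig ht hβ.1 hβ.2
    have h5 := Real.sin_nonneg_of_nonneg_of_le_pi hβ.1 hβ.2
    have h6 : ((1 + ρ) ^ 2) ^ (-s) ≤ wn t β ^ (-s) :=
      Real.rpow_le_rpow_of_nonpos (wn_pos ht β) (wn_le t β) (by linarith)
    have h7 : 0 ≤ hf F t β * Real.sin β := mul_nonneg h4 h5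
    calc ((1 + ρ) ^ 2) ^ (-s) * (hf F t β * Real.sin β) ≤
        wn t β ^ (-s) * (hf F t β * Real.sin β) := mul_le_mul_of_nonneg_right h6 h7
      _ = _ := by ring
  have hb1 : (b 1).re = β := by rw [h.b1, ofReal_re]
  rw [int_hf_sin h.sig ht, hb1] at h3
  have h4 : ∫ θ in (-π)..π, wn t θ ^ (-s) * (2 * (conj (G J t θ) * (G F t θ - G J t θ)).re) ≤
      -(4 * π) * (1 - 2 * s) * ρ * ((1 + ρ) ^ 2) ^ (-s) * (1 - β) := by
    refine h2.trans ?_
    have h5 : 0 ≤ 8 * (1 - 2 * s) * Real.exp (-t) := by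
      have : 0 ≤ 1 - 2 * s := by linarith
      positivity
    have h6 := mul_le_mul_of_nonneg_left h3 h5
    have e : 8 * (1 - 2 * s) * Real.exp (-t) *
        (((1 + ρ) ^ 2) ^ (-s) * (π / 2 * ((1 - β) * Real.exp (-t)))) =
        (4 * π) * (1 - 2 * s) * ρ * ((1 + ρ) ^ 2) ^ (-s) * (1 - β) := by
      rw [← hx2]; ring
    rw [e] at h6
    linarith
  -- the quadratic term
  have h5 := quad_le h ht (-s)
  rw [show (2 * -s : ℝ) = -(2 * s) by ring, ← hρ, ← hQ, inv_mul_le_iff₀ (by positivity)] at h5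
  have h6 : 0 ≤ (1 - s) * ρ := mul_nonneg (by linarith) hρ0.le
  have h7 := mul_le_mul_of_nonneg_left (add_le_add h4 h5) h6
  refine h1.trans ?_
  refine (add_le_add_right h7 _).trans (le_of_eq ?_)
  ring

/-- Bernoulli's inequality and the area theorem -/
theorem bern_core (h : Nrm F b β) {p t : ℝ} (hp : 0 ≤ p) (hp1 : p ≤ 1) (ht : 0 < t) :
    ∫ θ in (-π)..π, nF b t θ ^ p ≤ 2 * π * (1 + p * (Real.exp (-2 * t) ^ 2 *
      (β ^ 2 + Real.exp (-2 * t) * (1 - β ^ 2) / 2))) := by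
  have hpi := Real.pi_pos
  set ρ : ℝ := Real.exp (-2 * t) with hρ
  have hρ0 : 0 < ρ := Real.exp_pos _
  have hρ1 : ρ < 1 := R_lt ht
  set x : ℝ := Real.exp (-t) with hx
  have hx0 : 0 < x := Real.exp_pos _
  have hx1 : x < 1 := Real.exp_lt_one_iff.2 (by linarith)
  have hx2 : x ^ 2 = ρ := by
    rw [hx, hρ, ← Real.exp_nat_mul]; congr 1; push_cast; ring
  have hcN := nF_cont h.sig ht
  have hN0 : ∀ θ, 0 ≤ nF b t θ := fun θ => by unfold nF; positivity
  have hle : (-π) ≤ π := by linarith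
  have h1 : ∫ θ in (-π)..π, nF b t θ ^ p ≤ ∫ θ in (-π)..π, ((1 - p) + p * nF b t θ) := by
    refine intervalIntegral.integral_mono_on hle
      ((hcN.rpow_const fun θ => Or.inr hp).intervalIntegrable _ _)
      ((continuous_const.add (continuous_const.mul hcN)).intervalIntegrable _ _) fun θ _ => ?_
    have h2 := rpow_tangent (hN0 θ) one_pos hp hp1
    rw [Real.one_rpow, Real.one_rpow] at h2
    linarith
  have i2 : IntervalIntegrable (fun θ => p * nF b t θ) volume (-π) π :=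
    (continuous_const.mul hcN).intervalIntegrable _ _
  rw [intervalIntegral.integral_add intervalIntegrable_const i2,
    intervalIntegral.integral_const_mul, intervalIntegral.integral_const] at h1
  have h2 := h.sig.rep_sps.parseval_self hx0.le hx1
  have h3 : ∫ θ in (-π)..π, nF b t θ ≤ 2 * π * (1 + ρ ^ 2 * (β ^ 2 + ρ * (1 - β ^ 2) / 2)) := by
    refine hasSum_le_partial h2 fun N => ?_
    rw [Finset.sum_range_succ', coeff_sps_zero]
    simp only [coeff_sps_succ, norm_one, one_pow, mul_one, mul_zero, pow_zero]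
    have h4 : ∑ k ∈ Finset.range N, 2 * π * ‖b k‖ ^ 2 * x ^ (2 * (k + 1)) ≤
        2 * π * (ρ ^ 2 * (β ^ 2 + ρ * (1 - β ^ 2) / 2)) := by
      have h5 : ∀ k : ℕ, 2 * π * ‖b k‖ ^ 2 * x ^ (2 * (k + 1)) ≤
          2 * π * ((ρ ^ 2 - ρ ^ 3 / 2) * (if k = 1 then β ^ 2 else 0) +
            ρ ^ 3 / 2 * (k * ‖b k‖ ^ 2)) := by
        intro k
        have e : x ^ (2 * (k + 1)) = ρ ^ (k + 1) := by rw [pow_mul, hx2]
        rw [e, mul_assoc]
        refine mul_le_mul_of_nonneg_left ?_ (by positivity)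
        rcases k with _ | _ | k
        · rw [h.sig.b0]; simp
        · have : ‖b 1‖ ^ 2 = β ^ 2 := by
            rw [h.b1, Complex.norm_real, Real.norm_eq_abs, sq_abs]
          simp only [zero_add, if_true]
          rw [this]
          push_cast
          linarith
        · rw [if_neg (by omega)]
          have h6 : ρ ^ (k + 1 + 1 + 1) ≤ ρ ^ 3 :=
            pow_le_pow_of_le_one hρ0.le hρ1.le (by omega)
          push_cast
          have h7 : (0 : ℝ) ≤ k := Nat.cast_nonneg k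
          have h8 : 0 ≤ ‖b (k + 1 + 1)‖ ^ 2 := by positivity
          have h9 := mul_le_mul_of_nonneg_left h6 h8
          have h10 : 0 ≤ ρ ^ 3 * ((k : ℝ) * ‖b (k + 1 + 1)‖ ^ 2) := by positivity
          nlinarith
      refine (Finset.sum_le_sum fun k _ => h5 k).trans ?_
      rw [← Finset.mul_sum]
      refine mul_le_mul_of_nonneg_left ?_ (by positivity)
      rw [Finset.sum_add_distrib, ← Finset.mul_sum, ← Finset.mul_sum]
      have h6 := h.sig.area N
      have h7 : ∑ k ∈ Finset.range N, (if k = 1 then β ^ 2 else 0) ≤ β ^ 2 := by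
        rw [Finset.sum_ite_eq']
        split_ifs
        · exact le_rfl
        · positivity
      have h8 : 0 ≤ ρ ^ 2 - ρ ^ 3 / 2 := by nlinarith [sq_nonneg ρ, mul_pos hρ0 hρ0]
      have h9 := mul_le_mul_of_nonneg_left h7 h8
      have h10 := mul_le_mul_of_nonneg_left h6 (by positivity : 0 ≤ ρ ^ 3 / 2)
      nlinarith
    linarith
  rw [smul_eq_mul] at h1
  have h4 := mul_le_mul_of_nonneg_left h3 hp
  refine h1.trans ?_
  nlinarith

/-- abbreviation of the conclusion -/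
def Cmp (b : ℕ → ℂ) (β p t : ℝ) : Prop :=
  ∫ θ in (-π)..π, nF b t θ ^ p ≤ Mo p (Real.exp (-2 * t)) ∧
    (β < 1 → ∫ θ in (-π)..π, nF b t θ ^ p < Mo p (Real.exp (-2 * t)))

/-- general criterion -/
theorem cmp_of (h : Nrm F b β) {s t Q β0 κ : ℝ} (hs : 0 < s) (hs1 : s ≤ 1 / 2) (ht : 0 < t)
    (hQ : (2 * π)⁻¹ * Mo (-(2 * s)) (Real.exp (-2 * t)) ≤ Q)
    (hκ : κ ≤ ((1 + Real.exp (-2 * t)) ^ 2) ^ (-s))
    (hβ0 : β0 ^ 2 + Real.exp (-2 * t) * (1 - β0 ^ 2) / 2 < 1 - s) (hb0 : 0 ≤ β0)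
    (hb1 : β0 ≤ 1)
    (hm : Q * (1 - β0) + Real.exp (-2 * t) * ((1 + Q) / 4) * (1 + β0) < 2 * (1 - 2 * s) * κ)
    (hm1 : Real.exp (-2 * t) * ((1 + Q) / 4) * 2 < 2 * (1 - 2 * s) * κ) :
    Cmp b β (1 - s) t := by
  have hpi := Real.pi_pos
  set ρ : ℝ := Real.exp (-2 * t) with hρ
  have hρ0 : 0 < ρ := Real.exp_pos _
  have hρ1 : ρ < 1 := R_lt ht
  have hnn := h.nn
  have hle := h.beta_le
  rcases le_or_gt β β0 with hc | hc
  · have h1 := bern_core h (p := 1 - s) (by linarith) (by linarith) ht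
    have h2 := Mo_ge (p := 1 - s) hρ0.le hρ1
    rw [← hρ] at h1
    have h3 : β ^ 2 + ρ * (1 - β ^ 2) / 2 ≤ β0 ^ 2 + ρ * (1 - β0 ^ 2) / 2 := by
      have h4 : β ^ 2 ≤ β0 ^ 2 := pow_le_pow_left₀ hnn hc 2
      nlinarith
    have h5 : 2 * π * (1 + (1 - s) * (ρ ^ 2 * (β ^ 2 + ρ * (1 - β ^ 2) / 2))) <
        2 * π * (1 + (1 - s) ^ 2 * ρ ^ 2) := by
      have h6 : 0 < (1 - s) * ρ ^ 2 := by
        have : 0 < 1 - s := by linarith
        positivity
      have h7 := mul_lt_mul_of_pos_left (lt_of_le_of_lt h3 hβ0) h6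
      have h8 : 0 < 2 * π := by positivity
      have h9 : 1 + (1 - s) * (ρ ^ 2 * (β ^ 2 + ρ * (1 - β ^ 2) / 2)) <
          1 + (1 - s) ^ 2 * ρ ^ 2 := by linarith
      exact mul_lt_mul_of_pos_left h9 h8
    exact ⟨(h1.trans_lt (h5.trans_le h2)).le, fun _ => h1.trans_lt (h5.trans_le h2)⟩
  · have h1 := wp_core h hs.le hs1 ht
    rw [← hρ] at h1
    set Q' : ℝ := (2 * π)⁻¹ * Mo (-(2 * s)) ρ with hQ'
    have h2 : Q' * (1 - β) + ρ * ((1 + Q') / 4) * (1 + β) -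
        2 * (1 - 2 * s) * ((1 + ρ) ^ 2) ^ (-s) < 0 := by
      have h3 : Q' * (1 - β) + ρ * ((1 + Q') / 4) * (1 + β) ≤
          Q * (1 - β) + ρ * ((1 + Q) / 4) * (1 + β) := by
        have h4 := mul_le_mul_of_nonneg_right hQ (by linarith : 0 ≤ 1 - β)
        have h5 : ρ * ((1 + Q') / 4) * (1 + β) ≤ ρ * ((1 + Q) / 4) * (1 + β) := by
          have : 0 ≤ 1 + β := by linarith
          gcongr
        linarith
      have h6 : 2 * (1 - 2 * s) * κ ≤ 2 * (1 - 2 * s) * ((1 + ρ) ^ 2) ^ (-s) :=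
        mul_le_mul_of_nonneg_left hκ (by linarith)
      -- linear in `β`
      have h7 : Q * (1 - β) + ρ * ((1 + Q) / 4) * (1 + β) < 2 * (1 - 2 * s) * κ := by
        rcases eq_or_lt_of_le hb1 with h8 | h8
        · exfalso; linarith
        · have h9 : 0 < 1 - β0 := by linarith
          have h10 : (1 - β0) * (Q * (1 - β) + ρ * ((1 + Q) / 4) * (1 + β)) =
              (1 - β) * (Q * (1 - β0) + ρ * ((1 + Q) / 4) * (1 + β0)) +
              (β - β0) * (ρ * ((1 + Q) / 4) * 2) := by ring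
          have h11 : (1 - β0) * (2 * (1 - 2 * s) * κ) = (1 - β) * (2 * (1 - 2 * s) * κ) +
              (β - β0) * (2 * (1 - 2 * s) * κ) := by ring
          have h12 := mul_le_mul_of_nonneg_left hm.le (by linarith : 0 ≤ 1 - β)
          have h13 := mul_lt_mul_of_pos_left hm1 (by linarith : 0 < β - β0)
          have h14 : (1 - β0) * (Q * (1 - β) + ρ * ((1 + Q) / 4) * (1 + β)) <
              (1 - β0) * (2 * (1 - 2 * s) * κ) := by
            rw [h10, h11]; linarith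
          exact lt_of_mul_lt_mul_left h14 h9.le
      linarith
    have hp : 0 < 1 - s := by linarith
    constructor
    · have h3 : (1 - s) * (2 * π) * ρ ^ 2 * (1 - β) *
          (Q' * (1 - β) + ρ * ((1 + Q') / 4) * (1 + β) -
            2 * (1 - 2 * s) * ((1 + ρ) ^ 2) ^ (-s)) ≤ 0 := by
        apply mul_nonpos_of_nonneg_of_nonpos _ h2.le
        have : 0 ≤ 1 - β := by linarith
        positivity
      linarith
    · intro hβ1
      have h3 : (1 - s) * (2 * π) * ρ ^ 2 * (1 - β) *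
          (Q' * (1 - β) + ρ * ((1 + Q') / 4) * (1 + β) -
            2 * (1 - 2 * s) * ((1 + ρ) ^ 2) ^ (-s)) < 0 := by
        apply mul_neg_of_pos_of_neg _ h2
        have : 0 < 1 - β := by linarith
        positivity
      linarith

/-- `7/4 <= lambda < 2`, all radii -/
theorem cmp74 (h : Nrm F b β) {s t : ℝ} (hs : 0 < s) (hs1 : s ≤ 1 / 8) (ht : 0 < t) :
    Cmp b β (1 - s) t := by
  have hρ0 := R_pos t
  have hρ1 := R_lt ht
  have hκ : (21 / 25 : ℝ) ≤ ((1 + Real.exp (-2 * t)) ^ 2) ^ (-s) := by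
    have h1 : (1 + Real.exp (-2 * t)) ^ 2 ≤ 4 := by nlinarith
    have h2 : (4 : ℝ) ^ (-s) ≤ ((1 + Real.exp (-2 * t)) ^ 2) ^ (-s) :=
      Real.rpow_le_rpow_of_nonpos (by positivity) h1 (by linarith)
    have h3 : (4 : ℝ) ^ (-(1 / 8 : ℝ)) ≤ (4 : ℝ) ^ (-s) :=
      Real.rpow_le_rpow_of_exponent_le (by norm_num) (by linarith)
    have h4 : (21 / 25 : ℝ) ≤ (4 : ℝ) ^ (-(1 / 8 : ℝ)) := by
      have h5 : ((4 : ℝ) ^ (-(1 / 8 : ℝ))) ^ (8 : ℕ) = 1 / 4 := by
        rw [← Real.rpow_natCast, ← Real.rpow_mul (by norm_num)]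
        norm_num
      by_contra hcon
      push Not at hcon
      have h6 := pow_lt_pow_left₀ hcon (by positivity) (by norm_num : (8 : ℕ) ≠ 0)
      rw [h5] at h6
      norm_num at h6
    linarith
  refine cmp_of h hs (by linarith) ht (Q := 19 / 16) (β0 := 5 / 6) (κ := 21 / 25)
    (Q_le (by linarith) (by linarith) hρ0.le hρ1) hκ ?_ (by norm_num) (by norm_num) ?_ ?_
  · nlinarith
  · nlinarith
  · nlinarith

/-- `3/2 <= lambda < 2`, radii at least `4/3` -/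
theorem cmp32 (h : Nrm F b β) {s t : ℝ} (hs : 0 < s) (hs1 : s ≤ 1 / 4) (ht : 0 < t)
    (hρ : Real.exp (-2 * t) ≤ 9 / 16) : Cmp b β (1 - s) t := by
  have hρ0 := R_pos t
  have hκ : (4 / 5 : ℝ) ≤ ((1 + Real.exp (-2 * t)) ^ 2) ^ (-s) := by
    have h1 : (1 + Real.exp (-2 * t)) ^ 2 ≤ (25 / 16) ^ 2 := by nlinarith
    have h2 : ((25 / 16 : ℝ) ^ 2) ^ (-s) ≤ ((1 + Real.exp (-2 * t)) ^ 2) ^ (-s) :=
      Real.rpow_le_rpow_of_nonpos (by positivity) h1 (by linarith)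
    have h3 : ((25 / 16 : ℝ) ^ 2) ^ (-(1 / 4 : ℝ)) ≤ ((25 / 16 : ℝ) ^ 2) ^ (-s) :=
      Real.rpow_le_rpow_of_exponent_le (by norm_num) (by linarith)
    have h4 : ((25 / 16 : ℝ) ^ 2) ^ (-(1 / 4 : ℝ)) = 4 / 5 := by
      rw [show (25 / 16 : ℝ) ^ 2 = (5 / 4 : ℝ) ^ (4 : ℕ) by norm_num, ← Real.rpow_natCast,
        ← Real.rpow_mul (by norm_num)]
      norm_num
    linarith
  refine cmp_of h hs (by linarith) ht (Q := 111 / 100) (β0 := 4 / 5) (κ := 4 / 5)
    (Q_le' (by linarith) (by linarith) hρ0.le hρ) hκ ?_ (by norm_num) (by norm_num) ?_ ?_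
  · nlinarith
  · nlinarith
  · nlinarith

end Pool.Agent.H46.RD
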