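import Pool.Agent.H46.RD.Hf

/-!
# Green's formula in the half strip

`Fi s t β = e^(-t) sin β w^(-s)`, `w = |1 + u^2|^2`, `u = e^(-t-iβ)`, is subharmonic; hence
`∫_0^π (Fi * h_t - h * Fi_t) dβ >= 0` for the positive harmonic function `h = hf F`.
-/

open Complex MeasureTheory Set Filter Topology
open scoped ComplexConjugate Real

namespace Pool.Agent.H46.RD

open Pool.Agent.H15.Sig Pool.Agent.H36.SZ

variable {F : ℂ → ℂ} {b : ℕ → ℂ}

/-- `|1 + u^2|^2`, `u = e^(-t-iβ)` -/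
noncomputable def wn (t β : ℝ) : ℝ :=
  1 + 2 * Real.exp (-2 * t) * Real.cos (2 * β) + Real.exp (-2 * t) ^ 2

theorem R_pos (t : ℝ) : 0 < Real.exp (-2 * t) := Real.exp_pos _

theorem R_lt {t : ℝ} (ht : 0 < t) : Real.exp (-2 * t) < 1 :=
  Real.exp_lt_one_iff.2 (by linarith)

theorem wn_ge (t β : ℝ) : (1 - Real.exp (-2 * t)) ^ 2 ≤ wn t β := by
  unfold wn
  have h1 := Real.neg_one_le_cos (2 * β)
  have h2 := R_pos t
  nlinarith

theorem wn_le (t β : ℝ) : wn t β ≤ (1 + Real.exp (-2 * t)) ^ 2 := by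
  unfold wn
  have h1 := Real.cos_le_one (2 * β)
  have h2 := R_pos t
  nlinarith

theorem wn_pos {t : ℝ} (ht : 0 < t) (β : ℝ) : 0 < wn t β := by
  have h1 := R_lt ht
  have h2 : 0 < (1 - Real.exp (-2 * t)) ^ 2 := by
    apply pow_pos; linarith
  exact lt_of_lt_of_le h2 (wn_ge t β)

theorem hasDeriv_R (t : ℝ) : HasDerivAt (fun t => Real.exp (-2 * t)) (-2 * Real.exp (-2 * t)) t := by
  have h1 := ((hasDerivAt_id t).const_mul (-2)).exp
  refine h1.congr_deriv ?_
  simp only [id]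
  ring

theorem hasDeriv_E (t : ℝ) : HasDerivAt (fun t => Real.exp (-t)) (-Real.exp (-t)) t := by
  have h1 := (hasDerivAt_neg t).exp
  refine h1.congr_deriv ?_
  ring

theorem hasDeriv_c2 (β : ℝ) : HasDerivAt (fun β => Real.cos (2 * β)) (-2 * Real.sin (2 * β)) β := by
  have h1 := ((hasDerivAt_id β).const_mul 2).cos
  refine h1.congr_deriv ?_
  simp only [id]
  ring

theorem hasDeriv_s2 (β : ℝ) : HasDerivAt (fun β => Real.sin (2 * β)) (2 * Real.cos (2 * β)) β := by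
  have h1 := ((hasDerivAt_id β).const_mul 2).sin
  refine h1.congr_deriv ?_
  simp only [id]
  ring

theorem wn_deriv_t (t β : ℝ) : HasDerivAt (fun τ => wn τ β)
    (-4 * Real.exp (-2 * t) * (Real.cos (2 * β) + Real.exp (-2 * t))) t := by
  have h1 := hasDeriv_R t
  have h2 := (((h1.const_mul 2).mul_const (Real.cos (2 * β))).const_add 1).add (h1.pow 2)
  refine h2.congr_deriv ?_
  simp only [Nat.cast_ofNat, Nat.add_one_sub_one, pow_one]
  ring

theorem wn_deriv_b (t β : ℝ) : HasDerivAt (wn t)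
    (-4 * Real.exp (-2 * t) * Real.sin (2 * β)) β := by
  have h1 := hasDeriv_c2 β
  have h2 := ((h1.const_mul (2 * Real.exp (-2 * t))).const_add 1).add_const
    (Real.exp (-2 * t) ^ 2)
  refine h2.congr_deriv ?_
  ring

theorem wq_deriv_t {t : ℝ} (ht : 0 < t) (q β : ℝ) : HasDerivAt (fun τ => wn τ β ^ q)
    (-4 * Real.exp (-2 * t) * (Real.cos (2 * β) + Real.exp (-2 * t)) * q * wn t β ^ (q - 1)) t := by
  have h1 := (wn_deriv_t t β).rpow_const (p := q) (Or.inl (wn_pos ht β).ne')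
  exact h1

theorem wq_deriv_b {t : ℝ} (ht : 0 < t) (q β : ℝ) : HasDerivAt (fun β => wn t β ^ q)
    (-4 * Real.exp (-2 * t) * Real.sin (2 * β) * q * wn t β ^ (q - 1)) β := by
  have h1 := (wn_deriv_b t β).rpow_const (p := q) (Or.inl (wn_pos ht β).ne')
  exact h1

noncomputable def Fi (s t β : ℝ) : ℝ := Real.exp (-t) * Real.sin β * wn t β ^ (-s)

noncomputable def Fit (s t β : ℝ) : ℝ := Real.exp (-t) * Real.sin β *
  (-wn t β ^ (-s) + 4 * s * Real.exp (-2 * t) * (Real.cos (2 * β) + Real.exp (-2 * t)) *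
    wn t β ^ (-s - 1))

noncomputable def Fib (s t β : ℝ) : ℝ := Real.exp (-t) *
  (Real.cos β * wn t β ^ (-s) + 4 * s * Real.exp (-2 * t) * Real.sin (2 * β) * Real.sin β *
    wn t β ^ (-s - 1))

noncomputable def Fitt (s t β : ℝ) : ℝ := Real.exp (-t) * Real.sin β *
  (wn t β ^ (-s) - 4 * s * Real.exp (-2 * t) * (Real.cos (2 * β) + Real.exp (-2 * t)) *
      wn t β ^ (-s - 1)
    - 4 * s * Real.exp (-2 * t) * (Real.cos (2 * β) + Real.exp (-2 * t)) * wn t β ^ (-s - 1)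
    - 8 * s * Real.exp (-2 * t) * (Real.cos (2 * β) + 2 * Real.exp (-2 * t)) * wn t β ^ (-s - 1)
    + 16 * s * (s + 1) * Real.exp (-2 * t) ^ 2 * (Real.cos (2 * β) + Real.exp (-2 * t)) ^ 2 *
      wn t β ^ (-s - 1 - 1))

noncomputable def Fibb (s t β : ℝ) : ℝ := Real.exp (-t) *
  (-Real.sin β * wn t β ^ (-s)
    + 8 * s * Real.exp (-2 * t) * Real.sin (2 * β) * Real.cos β * wn t β ^ (-s - 1)
    + 8 * s * Real.exp (-2 * t) * Real.cos (2 * β) * Real.sin β * wn t β ^ (-s - 1)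
    + 16 * s * (s + 1) * Real.exp (-2 * t) ^ 2 * Real.sin (2 * β) ^ 2 * Real.sin β *
      wn t β ^ (-s - 1 - 1))

theorem Fi_deriv_t {s t : ℝ} (ht : 0 < t) (β : ℝ) :
    HasDerivAt (fun τ => Fi s τ β) (Fit s t β) t := by
  have h1 := ((hasDeriv_E t).mul_const (Real.sin β)).mul (wq_deriv_t ht (-s) β)
  refine h1.congr_deriv ?_
  unfold Fit
  ring

theorem Fi_deriv_b {s t : ℝ} (ht : 0 < t) (β : ℝ) :
    HasDerivAt (Fi s t) (Fib s t β) β := by
  have h1 := ((Real.hasDerivAt_sin β).const_mul (Real.exp (-t))).mul (wq_deriv_b ht (-s) β)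
  refine h1.congr_deriv ?_
  unfold Fib
  ring

theorem Fit_deriv_t {s t : ℝ} (ht : 0 < t) (β : ℝ) :
    HasDerivAt (fun τ => Fit s τ β) (Fitt s t β) t := by
  have hR := hasDeriv_R t
  have h1 : HasDerivAt (fun τ => 4 * s * Real.exp (-2 * τ) *
      (Real.cos (2 * β) + Real.exp (-2 * τ)))
      (4 * s * (-2 * Real.exp (-2 * t)) * (Real.cos (2 * β) + Real.exp (-2 * t)) +
        4 * s * Real.exp (-2 * t) * (-2 * Real.exp (-2 * t))) t :=
    (hR.const_mul (4 * s)).mul (hR.const_add (Real.cos (2 * β)))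
  have h2 := (wq_deriv_t ht (-s) β).neg.add (h1.mul (wq_deriv_t ht (-s - 1) β))
  have h3 := ((hasDeriv_E t).mul_const (Real.sin β)).mul h2
  refine h3.congr_deriv ?_
  simp only [Pi.add_apply, Pi.neg_apply, Pi.mul_apply]
  unfold Fitt
  ring

theorem Fib_deriv_b {s t : ℝ} (ht : 0 < t) (β : ℝ) :
    HasDerivAt (Fib s t) (Fibb s t β) β := by
  have h1 := (Real.hasDerivAt_cos β).mul (wq_deriv_b ht (-s) β)
  have h2 : HasDerivAt (fun β => 4 * s * Real.exp (-2 * t) * Real.sin (2 * β) * Real.sin β)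
      (4 * s * Real.exp (-2 * t) * (2 * Real.cos (2 * β)) * Real.sin β +
        4 * s * Real.exp (-2 * t) * Real.sin (2 * β) * Real.cos β) β :=
    ((hasDeriv_s2 β).const_mul (4 * s * Real.exp (-2 * t))).mul (Real.hasDerivAt_sin β)
  have h3 := (h1.add (h2.mul (wq_deriv_b ht (-s - 1) β))).const_mul (Real.exp (-t))
  refine h3.congr_deriv ?_
  unfold Fibb
  ring

/-- the Laplacian -/
theorem Fi_lap {s t : ℝ} (ht : 0 < t) (β : ℝ) : Fitt s t β + Fibb s t β =
    Real.exp (-t) * Real.sin β * wn t β ^ (-s - 1) *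
      (16 * s ^ 2 * Real.exp (-2 * t) ^ 2 +
        8 * s * Real.exp (-2 * t) * (1 - Real.exp (-2 * t))) := by
  have hw := wn_pos ht β
  have e2 : wn t β ^ (-s - 1) = wn t β * wn t β ^ (-s - 1 - 1) := by
    rw [show (-s - 1 : ℝ) = 1 + (-s - 1 - 1) by ring, Real.rpow_add hw, Real.rpow_one]
    ring_nf
  have h1 : Real.sin (2 * β) * Real.cos β = Real.sin β * (1 + Real.cos (2 * β)) := by
    rw [Real.sin_two_mul, Real.cos_two_mul]; ring
  have h2 := Real.sin_sq_add_cos_sq (2 * β)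
  have h3 : wn t β = 1 + 2 * Real.exp (-2 * t) * Real.cos (2 * β) + Real.exp (-2 * t) ^ 2 := rfl
  have h4 : (Real.cos (2 * β) + Real.exp (-2 * t)) ^ 2 + Real.sin (2 * β) ^ 2 = wn t β := by
    rw [h3]; linear_combination h2
  unfold Fitt Fibb
  generalize wn t β ^ (-s - 1 - 1) = W2 at e2 ⊢
  generalize wn t β ^ (-s - 1) = W1 at e2 ⊢
  generalize wn t β ^ (-s) = W0
  generalize Real.exp (-t) = E
  generalize Real.exp (-2 * t) = R at h3 h4 ⊢
  generalize Real.sin β = a at h1 ⊢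
  generalize Real.cos (2 * β) = c at h1 h3 h4 ⊢
  generalize Real.cos β = d at h1 ⊢
  generalize Real.sin (2 * β) = σ at h1 h4 ⊢
  generalize wn t β = w at e2 h3 h4
  linear_combination (8 * s * R * E * W1) * h1 + (16 * s * (s + 1) * R ^ 2 * E * a * W2) * h4 -
    (16 * s * (s + 1) * R ^ 2 * E * a) * e2

theorem Fi_lap_nonneg {s t : ℝ} (hs : 0 ≤ s) (ht : 0 < t) {β : ℝ} (h0 : 0 ≤ β) (h1 : β ≤ π) :
    0 ≤ Fitt s t β + Fibb s t β := by
  rw [Fi_lap ht]
  have h2 := Real.sin_nonneg_of_nonneg_of_le_pi h0 h1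
  have h3 := R_lt ht
  have h4 := R_pos t
  have h5 := wn_pos ht β
  have h6 : 0 ≤ 1 - Real.exp (-2 * t) := by linarith
  positivity

theorem wq_cont2 (q : ℝ) :
    ContinuousOn (fun p : ℝ × ℝ => wn p.1 p.2 ^ q) {p | 0 < p.1} := by
  have h1 : Continuous fun p : ℝ × ℝ => wn p.1 p.2 := by unfold wn; fun_prop
  exact h1.continuousOn.rpow_const fun p hp => Or.inl (wn_pos hp p.2).ne'

theorem wq_cont {t : ℝ} (ht : 0 < t) (q : ℝ) : Continuous fun β => wn t β ^ q :=
  continuous_iff_continuousAt.2 fun β => (wq_deriv_b ht q β).continuousAt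

theorem Fi_cont2 (s : ℝ) : ContinuousOn (fun p : ℝ × ℝ => Fi s p.1 p.2) {p | 0 < p.1} := by
  unfold Fi
  exact (by fun_prop : Continuous fun p : ℝ × ℝ =>
    Real.exp (-p.1) * Real.sin p.2).continuousOn.mul (wq_cont2 _)

theorem Fitt_cont2 (s : ℝ) : ContinuousOn (fun p : ℝ × ℝ => Fitt s p.1 p.2) {p | 0 < p.1} := by
  have h0 := wq_cont2 (-s)
  have h1 := wq_cont2 (-s - 1)
  have h2 := wq_cont2 (-s - 1 - 1)
  have hc : ∀ g : ℝ × ℝ → ℝ, Continuous g → ContinuousOn g {p | 0 < p.1} :=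
    fun g hg => hg.continuousOn
  unfold Fitt
  refine (hc _ (by fun_prop)).mul ((((h0.sub ((hc _ (by fun_prop)).mul h1)).sub
    ((hc _ (by fun_prop)).mul h1)).sub ((hc _ (by fun_prop)).mul h1)).add
    ((hc _ (by fun_prop)).mul h2))

theorem Fi_cont {s t : ℝ} (ht : 0 < t) : Continuous (Fi s t) :=
  continuous_iff_continuousAt.2 fun β => (Fi_deriv_b ht β).continuousAt

theorem Fib_cont {s t : ℝ} (ht : 0 < t) : Continuous (Fib s t) :=
  continuous_iff_continuousAt.2 fun β => (Fib_deriv_b ht β).continuousAt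

theorem Fit_cont {s t : ℝ} (ht : 0 < t) : Continuous (Fit s t) := by
  have h0 := wq_cont ht (-s)
  have h1 := wq_cont ht (-s - 1)
  unfold Fit
  fun_prop

theorem Fitt_cont {s t : ℝ} (ht : 0 < t) : Continuous (Fitt s t) := by
  have h0 := wq_cont ht (-s)
  have h1 := wq_cont ht (-s - 1)
  have h2 := wq_cont ht (-s - 1 - 1)
  unfold Fitt
  fun_prop

theorem Fibb_cont {s t : ℝ} (ht : 0 < t) : Continuous (Fibb s t) := by
  have h0 := wq_cont ht (-s)
  have h1 := wq_cont ht (-s - 1)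
  have h2 := wq_cont ht (-s - 1 - 1)
  unfold Fibb
  fun_prop

/-- the Green functional -/
noncomputable def Pg (F : ℂ → ℂ) (s t : ℝ) : ℝ :=
  ∫ β in (0:ℝ)..π, (Fi s t β * hft F t β - hf F t β * Fit s t β)

theorem Pg_deriv (h : IsSig F b) {s t : ℝ} (ht : 0 < t) : HasDerivAt (Pg F s)
    (∫ β in (0:ℝ)..π, (Fi s t β * hftt F t β - hf F t β * Fitt s t β)) t := by
  refine dint (f := fun t β => Fi s t β * hft F t β - hf F t β * Fit s t β)
    (f' := fun t β => Fi s t β * hftt F t β - hf F t β * Fitt s t β) (t0 := 0) ?_ ?_ ?_ ht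
  · intro τ hτ
    exact ((Fi_cont hτ).mul (hft_cont h hτ)).sub ((hf_cont h hτ).mul (Fit_cont hτ))
  · exact ((Fi_cont2 s).mul (hftt_cont2 h)).sub ((hf_cont2 h).mul (Fitt_cont2 s))
  · intro τ θ hτ
    have h1 := ((Fi_deriv_t (s := s) hτ θ).mul (hft_deriv_t h hτ θ)).sub
      ((hf_deriv_t h hτ θ).mul (Fit_deriv_t (s := s) hτ θ))
    refine h1.congr_deriv ?_
    ring

theorem Pg_parts (h : IsSig F b) {s t : ℝ} (ht : 0 < t) :
    ∫ β in (0:ℝ)..π, (Fi s t β * hftt F t β - hf F t β * Fitt s t β) =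
      -∫ β in (0:ℝ)..π, hf F t β * (Fitt s t β + Fibb s t β) := by
  have hi : ∀ g : ℝ → ℝ, Continuous g → IntervalIntegrable g volume 0 π :=
    fun g hg => hg.intervalIntegrable _ _
  have h1 : ∫ β in (0:ℝ)..π, Fi s t β * (-hftt F t β) =
      Fi s t π * hfb F t π - Fi s t 0 * hfb F t 0 - ∫ β in (0:ℝ)..π, Fib s t β * hfb F t β :=
    intervalIntegral.integral_mul_deriv_eq_deriv_mul
      (fun β _ => Fi_deriv_b ht β) (fun β _ => hfb_deriv_b h ht β)
      (hi _ (Fib_cont ht)) (hi _ (hftt_cont h ht).neg)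
  have h2 : ∫ β in (0:ℝ)..π, Fib s t β * hfb F t β =
      Fib s t π * hf F t π - Fib s t 0 * hf F t 0 - ∫ β in (0:ℝ)..π, Fibb s t β * hf F t β :=
    intervalIntegral.integral_mul_deriv_eq_deriv_mul
      (fun β _ => Fib_deriv_b ht β) (fun β _ => hf_deriv_b h ht β)
      (hi _ (Fibb_cont ht)) (hi _ (hfb_cont h ht))
  have e1 : Fi s t π = 0 := by unfold Fi; rw [Real.sin_pi]; ring
  have e2 : Fi s t 0 = 0 := by unfold Fi; rw [Real.sin_zero]; ring
  rw [e1, e2] at h1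
  rw [hf_pi h ht, hf_zero] at h2
  have h3 : ∫ β in (0:ℝ)..π, Fi s t β * (-hftt F t β) =
      -∫ β in (0:ℝ)..π, Fi s t β * hftt F t β := by
    rw [← intervalIntegral.integral_neg]
    exact intervalIntegral.integral_congr fun β _ => by ring
  have i1 : IntervalIntegrable (fun β => hf F t β * Fitt s t β) volume 0 π :=
    hi _ ((hf_cont h ht).mul (Fitt_cont ht))
  have i2 : IntervalIntegrable (fun β => Fibb s t β * hf F t β) volume 0 π :=
    hi _ ((Fibb_cont ht).mul (hf_cont h ht))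
  have i3 : IntervalIntegrable (fun β => Fi s t β * hftt F t β) volume 0 π :=
    hi _ ((Fi_cont ht).mul (hftt_cont h ht))
  have h4 : ∫ β in (0:ℝ)..π, hf F t β * (Fitt s t β + Fibb s t β) =
      (∫ β in (0:ℝ)..π, hf F t β * Fitt s t β) + ∫ β in (0:ℝ)..π, Fibb s t β * hf F t β := by
    rw [← intervalIntegral.integral_add i1 i2]
    exact intervalIntegral.integral_congr fun β _ => by ring
  rw [intervalIntegral.integral_sub i3 i1, h4]
  linarith

theorem Pg_deriv_nonpos (h : IsSig F b) {s t : ℝ} (hs : 0 ≤ s) (ht : 0 < t) :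
    ∫ β in (0:ℝ)..π, (Fi s t β * hftt F t β - hf F t β * Fitt s t β) ≤ 0 := by
  rw [Pg_parts h ht, neg_nonpos]
  refine intervalIntegral.integral_nonneg Real.pi_pos.le fun β hβ => ?_
  exact mul_nonneg (hf_nonneg h ht hβ.1 hβ.2) (Fi_lap_nonneg hs ht hβ.1 hβ.2)

theorem Pg_tendsto (h : IsSig F b) {s : ℝ} (hs : 0 ≤ s) :
    Tendsto (Pg F s) atTop (𝓝 0) := by
  obtain ⟨C, hC, h1⟩ := hf_bdd h (s := 1) one_pos
  have hpi := Real.pi_pos
  set m : ℝ := (1 - Real.exp (-2)) ^ 2 with hm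
  have hm0 : 0 < m := by
    have : Real.exp (-2) < 1 := Real.exp_lt_one_iff.2 (by norm_num)
    rw [hm]; apply pow_pos; linarith
  set K : ℝ := C * m ^ (-s) + C * (m ^ (-s) + 8 * s * m ^ (-s - 1)) with hK
  have hb : ∀ τ : ℝ, 1 ≤ τ → ‖Pg F s τ‖ ≤ (K * Real.exp (-τ)) * |π - 0| := by
    intro τ hτ
    have hτ0 : 0 < τ := by linarith
    refine intervalIntegral.norm_integral_le_of_norm_le_const fun β hβ => ?_
    rw [uIoc_of_le hpi.le] at hβ
    obtain ⟨h2, h3⟩ := h1 τ β hτ hβ.1.le hβ.2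
    have hsin0 := Real.sin_nonneg_of_nonneg_of_le_pi hβ.1.le hβ.2
    have hsin1 := Real.sin_le_one β
    have hE := Real.exp_pos (-τ)
    have hR0 := R_pos τ
    have hR1 := R_lt hτ0
    have hR2 : Real.exp (-2 * τ) ≤ Real.exp (-2) := Real.exp_le_exp.2 (by linarith)
    have hw : m ≤ wn τ β := by
      refine le_trans ?_ (wn_ge τ β)
      rw [hm]
      have : Real.exp (-2) < 1 := Real.exp_lt_one_iff.2 (by norm_num)
      apply pow_le_pow_left₀ (by linarith) (by linarith)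
    have hw0 : 0 < wn τ β := wn_pos hτ0 β
    have hW0 : wn τ β ^ (-s) ≤ m ^ (-s) :=
      Real.rpow_le_rpow_of_nonpos hm0 hw (by linarith)
    have hW1 : wn τ β ^ (-s - 1) ≤ m ^ (-s - 1) :=
      Real.rpow_le_rpow_of_nonpos hm0 hw (by linarith)
    have hW0p : 0 < wn τ β ^ (-s) := Real.rpow_pos_of_pos hw0 _
    have hW1p : 0 < wn τ β ^ (-s - 1) := Real.rpow_pos_of_pos hw0 _
    have hFi : |Fi s τ β| ≤ Real.exp (-τ) * m ^ (-s) := by
      unfold Fi
      rw [abs_mul, abs_mul, abs_of_pos hE, abs_of_nonneg hsin0, abs_of_pos hW0p]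
      calc Real.exp (-τ) * Real.sin β * wn τ β ^ (-s) ≤ Real.exp (-τ) * 1 * m ^ (-s) := by
            gcongr
        _ = _ := by ring
    have hFit : |Fit s τ β| ≤ Real.exp (-τ) * (m ^ (-s) + 8 * s * m ^ (-s - 1)) := by
      unfold Fit
      rw [abs_mul, abs_mul, abs_of_pos hE, abs_of_nonneg hsin0]
      have hc : |Real.exp (-2 * τ) * (Real.cos (2 * β) + Real.exp (-2 * τ))| ≤ 2 := by
        have h4 := Real.neg_one_le_cos (2 * β)
        have h5 := Real.cos_le_one (2 * β)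
        rw [abs_mul, abs_of_pos hR0]
        have h6 : |Real.cos (2 * β) + Real.exp (-2 * τ)| ≤ 2 := by
          rw [abs_le]; constructor <;> linarith
        calc Real.exp (-2 * τ) * |Real.cos (2 * β) + Real.exp (-2 * τ)| ≤ 1 * 2 := by
              gcongr
          _ = 2 := by norm_num
      have h7 : |-wn τ β ^ (-s) + 4 * s * Real.exp (-2 * τ) *
          (Real.cos (2 * β) + Real.exp (-2 * τ)) * wn τ β ^ (-s - 1)| ≤
          m ^ (-s) + 8 * s * m ^ (-s - 1) := by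
        refine (abs_add_le _ _).trans ?_
        rw [abs_neg, abs_of_pos hW0p]
        have e : 4 * s * Real.exp (-2 * τ) * (Real.cos (2 * β) + Real.exp (-2 * τ)) *
            wn τ β ^ (-s - 1) = (4 * s) * (Real.exp (-2 * τ) *
            (Real.cos (2 * β) + Real.exp (-2 * τ))) * wn τ β ^ (-s - 1) := by ring
        rw [e, abs_mul, abs_mul, abs_of_pos hW1p, abs_of_nonneg (by linarith : 0 ≤ 4 * s)]
        have h8 : 4 * s * |Real.exp (-2 * τ) * (Real.cos (2 * β) + Real.exp (-2 * τ))| *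
            wn τ β ^ (-s - 1) ≤ 4 * s * 2 * m ^ (-s - 1) := by gcongr
        linarith
      calc Real.exp (-τ) * Real.sin β * _ ≤ Real.exp (-τ) * 1 *
            (m ^ (-s) + 8 * s * m ^ (-s - 1)) := by gcongr
        _ = _ := by ring
    have h4 : ‖Fi s τ β * hft F τ β - hf F τ β * Fit s τ β‖ ≤
        |Fi s τ β| * |hft F τ β| + |hf F τ β| * |Fit s τ β| := by
      rw [Real.norm_eq_abs]
      refine (abs_sub _ _).trans ?_
      rw [abs_mul, abs_mul]
    refine h4.trans ?_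
    calc |Fi s τ β| * |hft F τ β| + |hf F τ β| * |Fit s τ β| ≤
        (Real.exp (-τ) * m ^ (-s)) * C +
          C * (Real.exp (-τ) * (m ^ (-s) + 8 * s * m ^ (-s - 1))) := by
          gcongr
      _ = K * Real.exp (-τ) := by rw [hK]; ring
  refine squeeze_zero_norm' (a := fun τ : ℝ => (K * Real.exp (-τ)) * |π - 0|) ?_ ?_
  · filter_upwards [eventually_ge_atTop 1] with τ hτ
    exact hb τ hτ
  · have h2 : Tendsto (fun τ : ℝ => Real.exp (-τ)) atTop (𝓝 0) :=
      Real.tendsto_exp_neg_atTop_nhds_zero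
    have h3 := (h2.const_mul K).mul_const |π - 0|
    simpa using h3

/-- Green's formula -/
theorem Pg_nonneg (h : IsSig F b) {s t : ℝ} (hs : 0 ≤ s) (ht : 0 < t) : 0 ≤ Pg F s t := by
  have h1 : AntitoneOn (Pg F s) (Ici t) := by
    refine antitoneOn_of_deriv_nonpos (convex_Ici t) ?_ ?_ ?_
    · intro τ hτ
      exact (Pg_deriv h (lt_of_lt_of_le ht hτ)).continuousAt.continuousWithinAt
    · intro τ hτ
      rw [interior_Ici] at hτ
      exact (Pg_deriv h (lt_trans ht hτ)).differentiableAt.differentiableWithinAt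
    · intro τ hτ
      rw [interior_Ici] at hτ
      rw [(Pg_deriv h (lt_trans ht hτ)).deriv]
      exact Pg_deriv_nonpos h hs (lt_trans ht hτ)
  refine le_of_tendsto (Pg_tendsto h hs) ?_
  filter_upwards [eventually_ge_atTop t] with τ hτ
  exact h1 self_mem_Ici hτ hτ

end Pool.Agent.H46.RD
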