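import Pool.Agent.H46.RD.Bs

/-!
# The function `hf`

`hf F t β = 2 cosh t sin β - (1/2) ∫_(-β)^β Re F (e^(t+iθ)) dθ`: nonnegative on `[0, π]`, zero at
the ends, harmonic in `(t, β)`, bounded as `t -> ∞`.
-/

open Complex MeasureTheory Set Filter Topology
open scoped ComplexConjugate Real

namespace Pool.Agent.H46.RD

open Pool.Agent.H15.Sig Pool.Agent.H36.SZ

variable {F : ℂ → ℂ} {b : ℕ → ℂ}

noncomputable def hf (F : ℂ → ℂ) (t β : ℝ) : ℝ :=
  2 * Real.cosh t * Real.sin β - (1 / 2) * ∫ θ in (-β)..β, (G F t θ).re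

noncomputable def hft (F : ℂ → ℂ) (t β : ℝ) : ℝ :=
  2 * Real.sinh t * Real.sin β - (1 / 2) * ((G F t β).im - (G F t (-β)).im)

noncomputable def hfb (F : ℂ → ℂ) (t β : ℝ) : ℝ :=
  2 * Real.cosh t * Real.cos β - (1 / 2) * ((G F t β).re + (G F t (-β)).re)

noncomputable def hftt (F : ℂ → ℂ) (t β : ℝ) : ℝ :=
  2 * Real.cosh t * Real.sin β - (1 / 2) * ((G1 F t β).im - (G1 F t (-β)).im)

theorem cG (h : IsSig F b) {t : ℝ} (ht : 0 < t) : Continuous (G F t) :=
  (an1 h).cGt (one_lt_exp ht)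

theorem cG1 (h : IsSig F b) {t : ℝ} (ht : 0 < t) : Continuous (G1 F t) :=
  (an1 h).cG1t (one_lt_exp ht)

theorem hasDeriv_re {f : ℝ → ℂ} {f' : ℂ} {x : ℝ} (h : HasDerivAt f f' x) :
    HasDerivAt (fun y => (f y).re) f'.re x :=
  (Complex.reCLM.hasFDerivAt.comp_hasDerivAt x h)

theorem hasDeriv_im {f : ℝ → ℂ} {f' : ℂ} {x : ℝ} (h : HasDerivAt f f' x) :
    HasDerivAt (fun y => (f y).im) f'.im x :=
  (Complex.imCLM.hasFDerivAt.comp_hasDerivAt x h)

theorem hasDeriv_neg {f : ℝ → ℝ} {f' β : ℝ} (h : HasDerivAt f f' (-β)) :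
    HasDerivAt (fun y => f (-y)) (-f') β := by
  have h1 : HasDerivAt (f ∘ Neg.neg) (f' * -1) β := HasDerivAt.comp β h (hasDerivAt_neg β)
  exact h1.congr_deriv (by ring)

theorem hf_deriv_b (h : IsSig F b) {t : ℝ} (ht : 0 < t) (β : ℝ) :
    HasDerivAt (hf F t) (hfb F t β) β := by
  have hc : Continuous fun θ : ℝ => (G F t θ).re := Complex.continuous_re.comp (cG h ht)
  have h0 : ∀ y : ℝ, ∫ θ in (-y)..y, (G F t θ).re =
      (∫ θ in (0:ℝ)..y, (G F t θ).re) - ∫ θ in (0:ℝ)..(-y), (G F t θ).re := by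
    intro y
    rw [intervalIntegral.integral_interval_sub_left (hc.intervalIntegrable _ _)
      (hc.intervalIntegrable _ _)]
  have h1 : HasDerivAt (fun y : ℝ => ∫ θ in (0:ℝ)..y, (G F t θ).re) (G F t β).re β :=
    intervalIntegral.integral_hasDerivAt_right (hc.intervalIntegrable _ _)
      (hc.stronglyMeasurableAtFilter _ _) hc.continuousAt
  have h2 : HasDerivAt (fun y : ℝ => ∫ θ in (0:ℝ)..y, (G F t θ).re) (G F t (-β)).re (-β) :=
    intervalIntegral.integral_hasDerivAt_right (hc.intervalIntegrable _ _)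
      (hc.stronglyMeasurableAtFilter _ _) hc.continuousAt
  have h3 := h1.sub (hasDeriv_neg h2)
  have h4 := ((Real.hasDerivAt_sin β).const_mul (2 * Real.cosh t)).sub (h3.const_mul (1 / 2))
  have e : (fun y => 2 * Real.cosh t * Real.sin y) - (fun y => (1 / 2) *
      ((fun y : ℝ => ∫ θ in (0:ℝ)..y, (G F t θ).re) -
        fun y : ℝ => ∫ θ in (0:ℝ)..(-y), (G F t θ).re) y) = hf F t := by
    funext y
    simp only [Pi.sub_apply, hf, h0]
  rw [e] at h4
  refine h4.congr_deriv ?_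
  unfold hfb
  ring

theorem hfb_deriv_b (h : IsSig F b) {t : ℝ} (ht : 0 < t) (β : ℝ) :
    HasDerivAt (hfb F t) (-hftt F t β) β := by
  have h1 := hasDeriv_re ((an1 h).hGq β (one_lt_exp ht))
  have h2 := hasDeriv_neg (hasDeriv_re ((an1 h).hGq (-β) (one_lt_exp ht)))
  have h3 := ((Real.hasDerivAt_cos β).const_mul (2 * Real.cosh t)).sub
    ((h1.add h2).const_mul (1 / 2))
  refine h3.congr_deriv ?_
  unfold hftt
  simp only [mul_re, I_re, I_im, zero_mul, one_mul, zero_sub]
  ring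

theorem hft_deriv_t (h : IsSig F b) {t : ℝ} (ht : 0 < t) (β : ℝ) :
    HasDerivAt (fun τ => hft F τ β) (hftt F t β) t := by
  have h1 := hasDeriv_im ((an1 h).hG β (one_lt_exp ht))
  have h2 := hasDeriv_im ((an1 h).hG (-β) (one_lt_exp ht))
  have h3 := (((Real.hasDerivAt_sinh t).const_mul 2).mul_const (Real.sin β)).sub
    ((h1.sub h2).const_mul (1 / 2))
  exact h3

theorem hf_deriv_t (h : IsSig F b) {t : ℝ} (ht : 0 < t) (β : ℝ) :
    HasDerivAt (fun τ => hf F τ β) (hft F t β) t := by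
  have hqe : ∀ τ : ℝ, 0 < τ → (1 : ℝ) < Real.exp τ := fun τ hτ => one_lt_exp hτ
  have h1 : HasDerivAt (fun τ => ∫ θ in (-β)..β, (G F τ θ).re)
      (∫ θ in (-β)..β, (G1 F t θ).re) t := by
    refine dint (f := fun τ θ => (G F τ θ).re) (f' := fun τ θ => (G1 F τ θ).re) (t0 := 0)
      (fun τ hτ => Complex.continuous_re.comp (cG h hτ)) ?_ ?_ ht
    · have h2 := (an1 h).cG1
      refine Complex.continuous_re.comp_continuousOn (h2.mono ?_)
      intro p hp
      exact hqe _ hp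
    · intro τ θ hτ
      exact hasDeriv_re ((an1 h).hG θ (hqe τ hτ))
  have h2 : ∫ θ in (-β)..β, (G1 F t θ).re = (G F t β).im - (G F t (-β)).im := by
    have h3 : ∀ θ ∈ uIcc (-β) β, HasDerivAt (fun θ => (G F t θ).im) (G1 F t θ).re θ := by
      intro θ _
      have h4 := hasDeriv_im ((an1 h).hGq θ (hqe t ht))
      refine h4.congr_deriv ?_
      simp
    exact intervalIntegral.integral_eq_sub_of_hasDerivAt h3
      ((Complex.continuous_re.comp (cG1 h ht)).intervalIntegrable _ _)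
  have h3 := (((Real.hasDerivAt_cosh t).const_mul 2).mul_const (Real.sin β)).sub
    (h1.const_mul (1 / 2))
  rw [h2] at h3
  exact h3

theorem hf_nonneg (h : IsSig F b) {t : ℝ} (ht : 0 < t) {β : ℝ} (h0 : 0 ≤ β) (h1 : β ≤ π) :
    0 ≤ hf F t β := by
  have h2 := co1 h ht (measurableSet_Ioc (a := -β) (b := β)) (Ioc_subset_Ioc (by linarith) h1)
  have hv : volume.real (Ioc (-β) β) / 2 = β := by
    rw [Real.volume_real_Ioc_of_le (by linarith)]; ring
  rw [hv, ← intervalIntegral.integral_of_le (by linarith)] at h2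
  have h3 : (∫ θ in (-β)..β, G F t θ).re = ∫ θ in (-β)..β, (G F t θ).re := by
    have hi : IntervalIntegrable (G F t) volume (-β) β := (cG h ht).intervalIntegrable _ _
    exact (Complex.reCLM.intervalIntegral_comp_comm hi).symm
  have h4 := (re_le_norm (∫ θ in (-β)..β, G F t θ)).trans h2
  rw [h3] at h4
  unfold hf
  linarith

theorem hf_zero (F : ℂ → ℂ) (t : ℝ) : hf F t 0 = 0 := by
  unfold hf
  simp

theorem hf_pi (h : IsSig F b) {t : ℝ} (ht : 0 < t) : hf F t π = 0 := by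
  have h1 := hf_nonneg h ht Real.pi_pos.le le_rfl
  have h2 := co1 h ht (measurableSet_Ioc (a := -π) (b := π)) le_rfl
  have hv : volume.real (Ioc (-π) π) / 2 = π := by
    rw [Real.volume_real_Ioc_of_le (by linarith [Real.pi_pos])]; ring
  rw [hv, Real.sin_pi, mul_zero, ← intervalIntegral.integral_of_le (by linarith [Real.pi_pos])]
    at h2
  have h3 : ∫ θ in (-π)..π, G F t θ = 0 := norm_le_zero_iff.1 h2
  have h4 : (∫ θ in (-π)..π, G F t θ).re = ∫ θ in (-π)..π, (G F t θ).re := by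
    have hi : IntervalIntegrable (G F t) volume (-π) π := (cG h ht).intervalIntegrable _ _
    exact (Complex.reCLM.intervalIntegral_comp_comm hi).symm
  rw [h3, zero_re] at h4
  unfold hf
  rw [← h4]
  simp

theorem hf_cont (h : IsSig F b) {t : ℝ} (ht : 0 < t) : Continuous (hf F t) :=
  continuous_iff_continuousAt.2 fun β => (hf_deriv_b h ht β).continuousAt

theorem hfb_cont (h : IsSig F b) {t : ℝ} (ht : 0 < t) : Continuous (hfb F t) :=
  continuous_iff_continuousAt.2 fun β => (hfb_deriv_b h ht β).continuousAt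

theorem hft_cont (h : IsSig F b) {t : ℝ} (ht : 0 < t) : Continuous (hft F t) := by
  have h1 := Complex.continuous_im.comp (cG h ht)
  have h2 : Continuous fun β : ℝ => (G F t β).im := h1
  have h3 : Continuous fun β : ℝ => (G F t (-β)).im := h2.comp continuous_neg
  unfold hft
  fun_prop

theorem hftt_cont (h : IsSig F b) {t : ℝ} (ht : 0 < t) : Continuous (hftt F t) := by
  have h1 := Complex.continuous_im.comp (cG1 h ht)
  have h2 : Continuous fun β : ℝ => (G1 F t β).im := h1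
  have h3 : Continuous fun β : ℝ => (G1 F t (-β)).im := h2.comp continuous_neg
  unfold hftt
  fun_prop

/-- joint continuity of `hftt` -/
theorem hftt_cont2 (h : IsSig F b) :
    ContinuousOn (fun p : ℝ × ℝ => hftt F p.1 p.2) {p | 0 < p.1} := by
  have hm : MapsTo (fun p : ℝ × ℝ => ((p.1, -p.2) : ℝ × ℝ)) {p | 0 < p.1} {p | 1 < Real.exp p.1} :=
    fun p hp => one_lt_exp hp
  have h1 : ContinuousOn (fun p : ℝ × ℝ => (G1 F p.1 p.2).im) {p | 0 < p.1} :=
    Complex.continuous_im.comp_continuousOn ((an1 h).cG1.mono fun p hp => one_lt_exp hp)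
  have h2 : ContinuousOn (fun p : ℝ × ℝ => (G1 F p.1 (-p.2)).im) {p | 0 < p.1} := by
    have h3 := (an1 h).cG1.comp (f := fun p : ℝ × ℝ => ((p.1, -p.2) : ℝ × ℝ))
      (s := {p | 0 < p.1}) (by fun_prop) hm
    exact Complex.continuous_im.comp_continuousOn h3
  unfold hftt
  exact (by fun_prop : Continuous fun p : ℝ × ℝ => 2 * Real.cosh p.1 * Real.sin p.2).continuousOn.sub
    (continuousOn_const.mul (h1.sub h2))

/-- joint continuity of `hf` -/
theorem hf_cont2 (h : IsSig F b) :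
    ContinuousOn (fun p : ℝ × ℝ => hf F p.1 p.2) {p | 0 < p.1} := by
  have h1 : ContinuousOn (fun p : ℝ × ℝ => hft F p.1 p.2) {p | 0 < p.1} := by
    have hm : MapsTo (fun p : ℝ × ℝ => ((p.1, -p.2) : ℝ × ℝ)) {p | 0 < p.1}
      {p | 1 < Real.exp p.1} := fun p hp => one_lt_exp hp
    have h1 : ContinuousOn (fun p : ℝ × ℝ => (G F p.1 p.2).im) {p | 0 < p.1} :=
      Complex.continuous_im.comp_continuousOn ((an1 h).cG.mono fun p hp => one_lt_exp hp)
    have h2 : ContinuousOn (fun p : ℝ × ℝ => (G F p.1 (-p.2)).im) {p | 0 < p.1} := by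
      have h3 := (an1 h).cG.comp (f := fun p : ℝ × ℝ => ((p.1, -p.2) : ℝ × ℝ))
        (s := {p | 0 < p.1}) (by fun_prop) hm
      exact Complex.continuous_im.comp_continuousOn h3
    unfold hft
    exact (by fun_prop : Continuous fun p : ℝ × ℝ =>
      2 * Real.sinh p.1 * Real.sin p.2).continuousOn.sub (continuousOn_const.mul (h1.sub h2))
  have h2 : ContinuousOn (fun p : ℝ × ℝ => hfb F p.1 p.2) {p | 0 < p.1} := by
    have hm : MapsTo (fun p : ℝ × ℝ => ((p.1, -p.2) : ℝ × ℝ)) {p | 0 < p.1}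
      {p | 1 < Real.exp p.1} := fun p hp => one_lt_exp hp
    have h1 : ContinuousOn (fun p : ℝ × ℝ => (G F p.1 p.2).re) {p | 0 < p.1} :=
      Complex.continuous_re.comp_continuousOn ((an1 h).cG.mono fun p hp => one_lt_exp hp)
    have h2 : ContinuousOn (fun p : ℝ × ℝ => (G F p.1 (-p.2)).re) {p | 0 < p.1} := by
      have h3 := (an1 h).cG.comp (f := fun p : ℝ × ℝ => ((p.1, -p.2) : ℝ × ℝ))
        (s := {p | 0 < p.1}) (by fun_prop) hm
      exact Complex.continuous_re.comp_continuousOn h3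
    unfold hfb
    exact (by fun_prop : Continuous fun p : ℝ × ℝ =>
      2 * Real.cosh p.1 * Real.cos p.2).continuousOn.sub (continuousOn_const.mul (h1.add h2))
  have ho : IsOpen {p : ℝ × ℝ | 0 < p.1} := isOpen_lt continuous_const continuous_fst
  intro p hp
  have hp0 : 0 < p.1 := hp
  -- `hf (t, β) = hf (p.1, β) + ∫ hft`, estimate by the mean value inequality
  obtain ⟨δ, hδ0, hδ⟩ : ∃ δ : ℝ, 0 < δ ∧ 0 < p.1 - δ := ⟨p.1 / 2, by linarith, by linarith⟩
  have hK : IsCompact (Icc (p.1 - δ) (p.1 + δ) ×ˢ Icc (p.2 - δ) (p.2 + δ)) :=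
    isCompact_Icc.prod isCompact_Icc
  have hsub : Icc (p.1 - δ) (p.1 + δ) ×ˢ Icc (p.2 - δ) (p.2 + δ) ⊆ {p : ℝ × ℝ | 0 < p.1} := by
    rintro ⟨p1, p2⟩ ⟨h3, _⟩
    exact lt_of_lt_of_le hδ h3.1
  obtain ⟨M, hM⟩ := hK.exists_bound_of_continuousOn (h1.mono hsub)
  have hM' : ∀ t β : ℝ, |t - p.1| < δ → |β - p.2| < δ →
      ‖hf F t β - hf F p.1 β‖ ≤ M * ‖t - p.1‖ := by
    intro t β ht hβ
    rw [abs_lt] at ht hβ
    have hconv : Convex ℝ (Icc (p.1 - δ) (p.1 + δ)) := convex_Icc _ _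
    refine hconv.norm_image_sub_le_of_norm_hasDerivWithin_le (f := fun τ => hf F τ β)
      (f' := fun τ => hft F τ β) ?_ ?_ ?_ ?_
    · intro τ hτ
      exact (hf_deriv_t h (lt_of_lt_of_le hδ hτ.1) β).hasDerivWithinAt
    · intro τ hτ
      exact hM (τ, β) ⟨hτ, ⟨by linarith [hβ.1], by linarith [hβ.2]⟩⟩
    · exact ⟨by linarith, by linarith⟩
    · exact ⟨by linarith [ht.1], by linarith [ht.2]⟩
  have h3 : ContinuousAt (fun p : ℝ × ℝ => hf F p.1 p.2) p := by
    have h4 : Tendsto (fun r : ℝ × ℝ => hf F p.1 r.2 + (hf F r.1 r.2 - hf F p.1 r.2)) (𝓝 p)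
        (𝓝 (hf F p.1 p.2 + 0)) := by
      refine Tendsto.add ?_ ?_
      · exact ((hf_cont h hp0).comp continuous_snd).tendsto p
      · refine squeeze_zero_norm' (a := fun r : ℝ × ℝ => M * ‖r.1 - p.1‖) ?_ ?_
        · have h5 : ∀ᶠ r : ℝ × ℝ in 𝓝 p, r ∈ Metric.ball p δ := Metric.ball_mem_nhds p hδ0
          filter_upwards [h5] with r hr
          rw [Metric.mem_ball, Prod.dist_eq, max_lt_iff, Real.dist_eq, Real.dist_eq] at hr
          exact hM' r.1 r.2 hr.1 hr.2
        · have h5 : Continuous fun r : ℝ × ℝ => M * ‖r.1 - p.1‖ := by fun_prop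
          have h6 := h5.tendsto p
          simpa using h6
    rw [add_zero] at h4
    refine h4.congr fun r => ?_
    ring
  exact h3.continuousWithinAt

/-- bounds for large `t` -/
theorem hf_bdd (h : IsSig F b) {s : ℝ} (hs : 0 < s) : ∃ C : ℝ, 0 ≤ C ∧ ∀ t β : ℝ, s ≤ t →
    0 ≤ β → β ≤ π → |hf F t β| ≤ C ∧ |hft F t β| ≤ C := by
  obtain ⟨C, hC, h1⟩ := asy1 h hs
  have hpi := Real.pi_pos
  refine ⟨1 + 4 * C, by positivity, fun t β ht hβ0 hβ1 => ?_⟩
  have ht0 : 0 < t := lt_of_lt_of_le hs ht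
  have he : ∀ θ : ℝ, exp ((t : ℂ) + θ * I) = ((Real.exp t * Real.cos θ : ℝ) : ℂ) +
      ((Real.exp t * Real.sin θ : ℝ) : ℂ) * I := by
    intro θ
    rw [Complex.exp_add, exp_mul_I]
    push_cast
    ring
  have hre : ∀ θ : ℝ, |(G F t θ).re - Real.exp t * Real.cos θ| ≤ C := by
    intro θ
    have h2 := (abs_re_le_norm (G F t θ - exp (t + θ * I))).trans (h1 t θ ht)
    rw [he, sub_re, add_re, ofReal_re, re_ofReal_mul, I_re, mul_zero, add_zero] at h2
    exact h2
  have him : ∀ θ : ℝ, |(G F t θ).im - Real.exp t * Real.sin θ| ≤ C := by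
    intro θ
    have h2 := (abs_im_le_norm (G F t θ - exp (t + θ * I))).trans (h1 t θ ht)
    rw [he, sub_im, add_im, ofReal_im, im_ofReal_mul, I_im, mul_one, zero_add] at h2
    exact h2
  have hex : Real.exp (-t) ≤ 1 := Real.exp_le_one_iff.2 (by linarith)
  have hex0 := Real.exp_pos (-t)
  constructor
  · have hc : Continuous fun θ : ℝ => (G F t θ).re := Complex.continuous_re.comp (cG h ht0)
    have h2 : ∫ θ in (-β)..β, (G F t θ).re = (∫ θ in (-β)..β,
        ((G F t θ).re - Real.exp t * Real.cos θ)) + 2 * Real.exp t * Real.sin β := by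
      rw [intervalIntegral.integral_sub (hc.intervalIntegrable _ _)
        ((by fun_prop : Continuous fun θ : ℝ => Real.exp t * Real.cos θ).intervalIntegrable _ _),
        intervalIntegral.integral_const_mul, integral_cos, Real.sin_neg]
      ring
    have h3 : ‖∫ θ in (-β)..β, ((G F t θ).re - Real.exp t * Real.cos θ)‖ ≤ C * |β - -β| :=
      intervalIntegral.norm_integral_le_of_norm_le_const fun θ _ => hre θ
    rw [Real.norm_eq_abs, show β - -β = 2 * β by ring, abs_of_nonneg (show (0:ℝ) ≤ 2 * β by linarith)] at h3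
    have h4 : hf F t β = Real.exp (-t) * Real.sin β -
        (1 / 2) * ∫ θ in (-β)..β, ((G F t θ).re - Real.exp t * Real.cos θ) := by
      unfold hf
      rw [h2, Real.cosh_eq]
      ring
    rw [h4]
    have h5 := Real.sin_le_one β
    have h6 := Real.sin_nonneg_of_nonneg_of_le_pi hβ0 hβ1
    have h7 : Real.exp (-t) * Real.sin β ≤ 1 := by nlinarith
    have h8 : 0 ≤ Real.exp (-t) * Real.sin β := by positivity
    have h9 : C * (2 * β) ≤ C * (2 * π) := by gcongr
    have h10 := Real.pi_le_four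
    rw [abs_le] at h3 ⊢
    constructor <;> nlinarith
  · have h2 : hft F t β = -Real.exp (-t) * Real.sin β - (1 / 2) *
        (((G F t β).im - Real.exp t * Real.sin β) -
          ((G F t (-β)).im - Real.exp t * Real.sin (-β))) := by
      unfold hft
      rw [Real.sinh_eq, Real.sin_neg]
      ring
    have h3 := him β
    have h4 := him (-β)
    have h5 := Real.sin_le_one β
    have h6 := Real.sin_nonneg_of_nonneg_of_le_pi hβ0 hβ1
    have h7 : Real.exp (-t) * Real.sin β ≤ 1 := by nlinarith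
    have h8 : 0 ≤ Real.exp (-t) * Real.sin β := by positivity
    rw [h2]
    rw [abs_le] at h3 h4 ⊢
    constructor <;> nlinarith

end Pool.Agent.H46.RD
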