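import Pool.Agent.H46.RD.Gr
import Pool.Agent.H36.SZ.JF

/-!
# The linear term
-/

open Complex MeasureTheory Set Filter Topology
open scoped ComplexConjugate Real

namespace Pool.Agent.H46.RD

open Pool.Agent.H15.Sig Pool.Agent.H36.SZ

variable {F : ℂ → ℂ} {b : ℕ → ℂ}

theorem G_eq (h : IsSig F b) {t : ℝ} (ht : 0 < t) (θ : ℝ) :
    G F t θ = exp (t + θ * I) + pw b ((Real.exp (-t) : ℝ) * ec θ) := by
  have hz : 1 < ‖exp ((t : ℂ) + θ * I)‖ := by
    rw [Complex.norm_exp]
    simpa using ht
  have h1 := h.eq_pw hz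
  unfold G
  rw [h1]
  congr 2
  unfold ec
  rw [← Complex.exp_neg, Complex.ofReal_exp, ← Complex.exp_add]
  congr 1
  push_cast
  ring

theorem int_G_cos (h : IsSig F b) {t : ℝ} (ht : 0 < t) :
    ∫ θ in (-π)..π, (G F t θ).re * Real.cos θ =
      π * (Real.exp t + (b 1).re * Real.exp (-t)) := by
  have hx0 : (0 : ℝ) ≤ Real.exp (-t) := (Real.exp_pos _).le
  have hx1 : Real.exp (-t) < 1 := Real.exp_lt_one_iff.2 (by linarith)
  set x : ℝ := Real.exp (-t) with hx
  have hpw : Continuous fun θ : ℝ => pw b ((x : ℂ) * ec θ) :=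
    h.rep_pw.continuous_circle hx0 hx1
  have h1 := h.rep_pw.coeff_integral hx0 hx1 1
  have h2 := (Rep.X.mul h.rep_pw).coeff_integral hx0 hx1 0
  rw [PowerSeries.coeff_mk, pow_one] at h1
  rw [PowerSeries.coeff_zero_X_mul, zero_mul, mul_zero] at h2
  simp only [pow_one, pow_zero, map_one, one_mul] at h1 h2
  have hec : ∀ θ : ℝ, ((Real.cos θ : ℝ) : ℂ) = (ec θ + conj (ec θ)) / 2 := by
    intro θ
    unfold ec
    rw [← Complex.exp_conj, map_neg, map_mul, conj_ofReal, conj_I, Complex.ofReal_cos,
      Complex.cos]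
    ring_nf
  have h3 : ∫ θ in (-π)..π, pw b ((x : ℂ) * ec θ) * ((Real.cos θ : ℝ) : ℂ) = π * (b 1 * x) := by
    have e1 : ∀ θ : ℝ, pw b ((x : ℂ) * ec θ) * ((Real.cos θ : ℝ) : ℂ) =
        (1 / 2) * (ec θ * pw b ((x : ℂ) * ec θ)) +
          (1 / 2) * (conj (ec θ) * pw b ((x : ℂ) * ec θ)) := by
      intro θ
      rw [hec]; ring
    have i1 : Continuous fun θ : ℝ => ec θ * pw b ((x : ℂ) * ec θ) := continuous_ec.mul hpw
    have i2 : Continuous fun θ : ℝ => conj (ec θ) * pw b ((x : ℂ) * ec θ) :=
      (continuous_conj.comp continuous_ec).mul hpw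
    have h4 : ∫ θ in (-π)..π, ec θ * pw b ((x : ℂ) * ec θ) = 0 := by
      have h5 : (x : ℂ) * ∫ θ in (-π)..π, ec θ * pw b ((x : ℂ) * ec θ) = 0 := by
        rw [← intervalIntegral.integral_const_mul, ← h2]
        refine intervalIntegral.integral_congr fun θ _ => ?_
        ring
      rcases mul_eq_zero.1 h5 with h6 | h6
      · exfalso
        have : x = 0 := by exact_mod_cast h6
        rw [hx] at this
        exact (Real.exp_pos _).ne' this
      · exact h6
    have j1 : IntervalIntegrable (fun θ : ℝ => (1 / 2 : ℂ) * (ec θ * pw b ((x : ℂ) * ec θ)))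
        volume (-π) π := (continuous_const.mul i1).intervalIntegrable _ _
    have j2 : IntervalIntegrable (fun θ : ℝ => (1 / 2 : ℂ) * (conj (ec θ) *
        pw b ((x : ℂ) * ec θ))) volume (-π) π := (continuous_const.mul i2).intervalIntegrable _ _
    simp_rw [e1]
    rw [intervalIntegral.integral_add j1 j2,
      intervalIntegral.integral_const_mul, intervalIntegral.integral_const_mul, h4, h1]
    ring
  have h4 : ∫ θ in (-π)..π, (pw b ((x : ℂ) * ec θ)).re * Real.cos θ = π * ((b 1).re * x) := by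
    have hi : IntervalIntegrable (fun θ : ℝ => pw b ((x : ℂ) * ec θ) * ((Real.cos θ : ℝ) : ℂ))
        volume (-π) π := (hpw.mul (by fun_prop)).intervalIntegrable _ _
    have h5 := Complex.reCLM.intervalIntegral_comp_comm hi
    rw [h3] at h5
    simp only [reCLM_apply, re_mul_ofReal] at h5
    rw [h5]
    simp
  have h6 : ∀ θ : ℝ, (G F t θ).re * Real.cos θ = Real.exp t * Real.cos θ ^ 2 +
      (pw b ((x : ℂ) * ec θ)).re * Real.cos θ := by
    intro θ
    rw [G_eq h ht, add_re, Complex.exp_re]
    simp only [add_re, ofReal_re, mul_re, I_re, mul_zero, ofReal_im, I_im, mul_one, sub_self,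
      add_zero, add_im, mul_im, zero_add]
    ring
  simp_rw [h6]
  have i3 : Continuous fun θ : ℝ => (pw b ((x : ℂ) * ec θ)).re * Real.cos θ :=
    (Complex.continuous_re.comp hpw).mul Real.continuous_cos
  rw [intervalIntegral.integral_add
    ((by fun_prop : Continuous fun θ : ℝ => Real.exp t * Real.cos θ ^ 2).intervalIntegrable _ _)
    (i3.intervalIntegrable _ _), h4, intervalIntegral.integral_const_mul, integral_cos_sq]
  simp
  ring

/-- the first sine coefficient of `hf` -/
theorem int_hf_sin (h : IsSig F b) {t : ℝ} (ht : 0 < t) :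
    ∫ β in (0:ℝ)..π, hf F t β * Real.sin β = π / 2 * ((1 - (b 1).re) * Real.exp (-t)) := by
  have hi : ∀ g : ℝ → ℝ, Continuous g → IntervalIntegrable g volume 0 π :=
    fun g hg => hg.intervalIntegrable _ _
  have h1 : ∫ β in (0:ℝ)..π, hf F t β * Real.sin β =
      hf F t π * (-Real.cos π) - hf F t 0 * (-Real.cos 0) -
        ∫ β in (0:ℝ)..π, hfb F t β * (-Real.cos β) := by
    refine intervalIntegral.integral_mul_deriv_eq_deriv_mul (v := fun β => -Real.cos β)
      (fun β _ => hf_deriv_b h ht β) (fun β _ => ?_) (hi _ (hfb_cont h ht))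
      (hi _ Real.continuous_sin)
    exact (Real.hasDerivAt_cos β).neg.congr_deriv (by ring)
  rw [hf_pi h ht, hf_zero] at h1
  have h2 : ∫ β in (0:ℝ)..π, hfb F t β * (-Real.cos β) = -∫ β in (0:ℝ)..π,
      hfb F t β * Real.cos β := by
    rw [← intervalIntegral.integral_neg]
    exact intervalIntegral.integral_congr fun β _ => by ring
  have hc : Continuous fun θ : ℝ => (G F t θ).re := Complex.continuous_re.comp (cG h ht)
  have hc' : Continuous fun θ : ℝ => (G F t (-θ)).re := hc.comp continuous_neg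
  have h3 : ∫ θ in (-π)..π, (G F t θ).re * Real.cos θ =
      (∫ θ in (0:ℝ)..π, (G F t θ).re * Real.cos θ) +
        ∫ θ in (0:ℝ)..π, (G F t (-θ)).re * Real.cos θ := by
    have h4 : Continuous fun θ : ℝ => (G F t θ).re * Real.cos θ := hc.mul Real.continuous_cos
    rw [← intervalIntegral.integral_add_adjacent_intervals (b := 0) (h4.intervalIntegrable _ _)
      (h4.intervalIntegrable _ _), add_comm]
    congr 1
    have h5 := intervalIntegral.integral_comp_neg (fun θ : ℝ => (G F t θ).re * Real.cos θ)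
      (a := 0) (b := π)
    rw [neg_zero] at h5
    rw [← h5]
    exact intervalIntegral.integral_congr fun θ _ => by simp only [Real.cos_neg]
  have h4 : ∫ β in (0:ℝ)..π, hfb F t β * Real.cos β = π * Real.cosh t -
      (1 / 2) * ∫ θ in (-π)..π, (G F t θ).re * Real.cos θ := by
    have e : ∀ β : ℝ, hfb F t β * Real.cos β = (2 * Real.cosh t) * Real.cos β ^ 2 -
        ((1 / 2) * ((G F t β).re * Real.cos β) + (1 / 2) * ((G F t (-β)).re * Real.cos β)) := by
      intro β
      unfold hfb
      ring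
    simp_rw [e]
    have j1 : IntervalIntegrable (fun β : ℝ => (2 * Real.cosh t) * Real.cos β ^ 2) volume 0 π :=
      hi _ (by fun_prop)
    have j2 : IntervalIntegrable (fun β : ℝ => (1 / 2) * ((G F t β).re * Real.cos β)) volume 0 π :=
      hi _ (continuous_const.mul (hc.mul Real.continuous_cos))
    have j3 : IntervalIntegrable (fun β : ℝ => (1 / 2) * ((G F t (-β)).re * Real.cos β))
        volume 0 π := hi _ (continuous_const.mul (hc'.mul Real.continuous_cos))
    rw [intervalIntegral.integral_sub j1 (j2.add j3), intervalIntegral.integral_add j2 j3,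
      intervalIntegral.integral_const_mul, intervalIntegral.integral_const_mul,
      intervalIntegral.integral_const_mul, integral_cos_sq, h3]
    simp
    ring
  rw [h1, h2, h4, int_G_cos h ht, Real.cosh_eq]
  ring

theorem int_split {f : ℝ → ℝ} (hf : Continuous f) :
    ∫ θ in (-π)..π, f θ = ∫ θ in (0:ℝ)..π, (f θ + f (-θ)) := by
  have hf' : Continuous fun θ : ℝ => f (-θ) := hf.comp continuous_neg
  rw [← intervalIntegral.integral_add_adjacent_intervals (b := 0) (hf.intervalIntegrable _ _)
    (hf.intervalIntegrable _ _), intervalIntegral.integral_add (hf.intervalIntegrable _ _)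
    (hf'.intervalIntegrable _ _), add_comm]
  congr 1
  have h5 := intervalIntegral.integral_comp_neg f (a := 0) (b := π)
  rw [neg_zero] at h5
  exact h5.symm

theorem wn_neg (t θ : ℝ) : wn t (-θ) = wn t θ := by
  unfold wn
  rw [mul_neg, Real.cos_neg]

/-- the linear term in terms of the gradient of `hf` -/
theorem lin_eq (h : IsSig F b) {s t : ℝ} (ht : 0 < t) :
    ∫ θ in (-π)..π, wn t θ ^ (-s) * (2 * (conj (G J t θ) * (G F t θ - G J t θ)).re) =
      -8 * ∫ β in (0:ℝ)..π, wn t β ^ (-s) *
        (Real.cosh t * Real.cos β * hfb F t β + Real.sinh t * Real.sin β * hft F t β) := by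
  have hcJ : Continuous (G J t) := an_J.cGt (Real.exp_pos t)
  have hcF := cG h ht
  have hc : Continuous fun θ : ℝ => wn t θ ^ (-s) *
      (2 * (conj (G J t θ) * (G F t θ - G J t θ)).re) := by
    refine (wq_cont ht _).mul (continuous_const.mul (Complex.continuous_re.comp ?_))
    exact (continuous_conj.comp hcJ).mul (hcF.sub hcJ)
  rw [int_split hc, ← intervalIntegral.integral_const_mul]
  refine intervalIntegral.integral_congr fun θ _ => ?_
  rw [wn_neg]
  have e1 : ∀ φ : ℝ, (conj (G J t φ) * (G F t φ - G J t φ)).re =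
      2 * Real.cosh t * Real.cos φ * ((G F t φ).re - 2 * Real.cosh t * Real.cos φ) +
      2 * Real.sinh t * Real.sin φ * ((G F t φ).im - 2 * Real.sinh t * Real.sin φ) := by
    intro φ
    have hJ : G J t φ = ((2 * Real.cosh t * Real.cos φ : ℝ) : ℂ) +
        ((2 * Real.sinh t * Real.sin φ : ℝ) : ℂ) * I := by
      rw [G_J]; push_cast; ring
    have hre : (G J t φ).re = 2 * Real.cosh t * Real.cos φ := by
      rw [hJ, add_re, ofReal_re, re_ofReal_mul, I_re, mul_zero, add_zero]
    have him : (G J t φ).im = 2 * Real.sinh t * Real.sin φ := by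
      rw [hJ, add_im, ofReal_im, im_ofReal_mul, I_im, mul_one, zero_add]
    rw [mul_re, conj_re, conj_im, sub_re, sub_im, hre, him]
    ring
  rw [e1, e1, Real.cos_neg, Real.sin_neg]
  unfold hfb hft
  ring

/-- the linear term, first bound -/
theorem lin_le (h : IsSig F b) {s t : ℝ} (hs : 0 ≤ s) (ht : 0 < t) :
    ∫ θ in (-π)..π, wn t θ ^ (-s) * (2 * (conj (G J t θ) * (G F t θ - G J t θ)).re) ≤
      -8 * (1 - 2 * s) * Real.exp (-t) *
        ∫ β in (0:ℝ)..π, hf F t β * (Real.sin β * wn t β ^ (-s)) := by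
  have hi : ∀ g : ℝ → ℝ, Continuous g → IntervalIntegrable g volume 0 π :=
    fun g hg => hg.intervalIntegrable _ _
  have hw0 := wq_cont ht (-s)
  have hw1 := wq_cont ht (-s - 1)
  have hhf := hf_cont h ht
  have hhb := hfb_cont h ht
  have hht := hft_cont h ht
  rw [lin_eq h ht]
  -- integration by parts in the first term
  have hdu : ∀ β : ℝ, HasDerivAt (fun β => wn t β ^ (-s) * Real.cos β)
      (-4 * Real.exp (-2 * t) * Real.sin (2 * β) * (-s) * wn t β ^ (-s - 1) * Real.cos β +
        wn t β ^ (-s) * (-Real.sin β)) β := by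
    intro β
    exact (wq_deriv_b ht (-s) β).mul (Real.hasDerivAt_cos β)
  have hu' : Continuous fun β : ℝ => -4 * Real.exp (-2 * t) * Real.sin (2 * β) * (-s) *
      wn t β ^ (-s - 1) * Real.cos β + wn t β ^ (-s) * (-Real.sin β) := by fun_prop
  have h1 : ∫ β in (0:ℝ)..π, (wn t β ^ (-s) * Real.cos β) * hfb F t β =
      (wn t π ^ (-s) * Real.cos π) * hf F t π - (wn t 0 ^ (-s) * Real.cos 0) * hf F t 0 -
        ∫ β in (0:ℝ)..π, (-4 * Real.exp (-2 * t) * Real.sin (2 * β) * (-s) *
          wn t β ^ (-s - 1) * Real.cos β + wn t β ^ (-s) * (-Real.sin β)) * hf F t β :=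
    intervalIntegral.integral_mul_deriv_eq_deriv_mul
      (fun β _ => hdu β) (fun β _ => hf_deriv_b h ht β) (hi _ hu') (hi _ hhb)
  rw [hf_pi h ht, hf_zero] at h1
  -- Green
  have h2 := Pg_nonneg h hs ht
  unfold Pg at h2
  have i1 : IntervalIntegrable (fun β => Fi s t β * hft F t β) volume 0 π :=
    hi _ ((Fi_cont ht).mul hht)
  have i2 : IntervalIntegrable (fun β => hf F t β * Fit s t β) volume 0 π :=
    hi _ (hhf.mul (Fit_cont ht))
  rw [intervalIntegral.integral_sub i1 i2] at h2
  have hE := Real.exp_pos (-t)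
  have h3 : ∫ β in (0:ℝ)..π, Fi s t β * hft F t β =
      Real.exp (-t) * ∫ β in (0:ℝ)..π, wn t β ^ (-s) * Real.sin β * hft F t β := by
    rw [← intervalIntegral.integral_const_mul]
    refine intervalIntegral.integral_congr fun β _ => ?_
    unfold Fi
    ring
  have h4 : ∫ β in (0:ℝ)..π, hf F t β * Fit s t β =
      Real.exp (-t) * ∫ β in (0:ℝ)..π, hf F t β * (Real.sin β *
        (-wn t β ^ (-s) + 4 * s * Real.exp (-2 * t) * (Real.cos (2 * β) + Real.exp (-2 * t)) *
          wn t β ^ (-s - 1))) := by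
    rw [← intervalIntegral.integral_const_mul]
    refine intervalIntegral.integral_congr fun β _ => ?_
    unfold Fit
    ring
  rw [h3, h4, ← mul_sub] at h2
  have h5 := nonneg_of_mul_nonneg_right h2 hE
  -- together
  have i3 : IntervalIntegrable (fun β => Real.cosh t * ((wn t β ^ (-s) * Real.cos β) *
      hfb F t β)) volume 0 π := hi _ (by fun_prop)
  have i4 : IntervalIntegrable (fun β => Real.sinh t * (wn t β ^ (-s) * Real.sin β *
      hft F t β)) volume 0 π := hi _ (by fun_prop)
  have h6 : ∫ β in (0:ℝ)..π, wn t β ^ (-s) *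
        (Real.cosh t * Real.cos β * hfb F t β + Real.sinh t * Real.sin β * hft F t β) =
      Real.cosh t * (∫ β in (0:ℝ)..π, (wn t β ^ (-s) * Real.cos β) * hfb F t β) +
      Real.sinh t * ∫ β in (0:ℝ)..π, wn t β ^ (-s) * Real.sin β * hft F t β := by
    rw [← intervalIntegral.integral_const_mul, ← intervalIntegral.integral_const_mul,
      ← intervalIntegral.integral_add i3 i4]
    exact intervalIntegral.integral_congr fun β _ => by ring
  have hS : 0 ≤ Real.sinh t := Real.sinh_nonneg_iff.2 ht.le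
  have h7 := mul_le_mul_of_nonneg_left (sub_nonneg.1 h5) hS
  -- pointwise identity
  have i5 : IntervalIntegrable (fun β => Real.cosh t * ((-4 * Real.exp (-2 * t) *
      Real.sin (2 * β) * (-s) * wn t β ^ (-s - 1) * Real.cos β + wn t β ^ (-s) *
      (-Real.sin β)) * hf F t β)) volume 0 π := hi _ (by fun_prop)
  have i6 : IntervalIntegrable (fun β => Real.sinh t * (hf F t β * (Real.sin β *
        (-wn t β ^ (-s) + 4 * s * Real.exp (-2 * t) * (Real.cos (2 * β) + Real.exp (-2 * t)) *
          wn t β ^ (-s - 1))))) volume 0 π := hi _ (by fun_prop)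
  have h8 : Real.cosh t * (∫ β in (0:ℝ)..π, (-4 * Real.exp (-2 * t) * Real.sin (2 * β) * (-s) *
          wn t β ^ (-s - 1) * Real.cos β + wn t β ^ (-s) * (-Real.sin β)) * hf F t β) -
      Real.sinh t * (∫ β in (0:ℝ)..π, hf F t β * (Real.sin β *
        (-wn t β ^ (-s) + 4 * s * Real.exp (-2 * t) * (Real.cos (2 * β) + Real.exp (-2 * t)) *
          wn t β ^ (-s - 1)))) = -((1 - 2 * s) * Real.exp (-t) *
        ∫ β in (0:ℝ)..π, hf F t β * (Real.sin β * wn t β ^ (-s))) := by
    rw [← intervalIntegral.integral_const_mul, ← intervalIntegral.integral_const_mul,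
      ← intervalIntegral.integral_const_mul, ← intervalIntegral.integral_neg,
      ← intervalIntegral.integral_sub i5 i6]
    refine intervalIntegral.integral_congr fun β _ => ?_
    have hw := wn_pos ht β
    have e2 : wn t β ^ (-s) = wn t β * wn t β ^ (-s - 1) := by
      rw [show (-s : ℝ) = 1 + (-s - 1) by ring, Real.rpow_add hw, Real.rpow_one]
      ring_nf
    have e3 : Real.sin (2 * β) * Real.cos β = Real.sin β * (1 + Real.cos (2 * β)) := by
      rw [Real.sin_two_mul, Real.cos_two_mul]; ring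
    have e4 : wn t β = 1 + 2 * Real.exp (-2 * t) * Real.cos (2 * β) + Real.exp (-2 * t) ^ 2 := rfl
    have e5 : Real.exp (-2 * t) = Real.exp (-t) ^ 2 := by
      rw [← Real.exp_nat_mul]; congr 1; push_cast; ring
    have e6 : Real.exp t * Real.exp (-t) = 1 := by rw [← Real.exp_add]; simp
    rw [Real.cosh_eq, Real.sinh_eq]
    rw [e5] at e4 ⊢
    generalize wn t β ^ (-s - 1) = W1 at e2 ⊢
    generalize wn t β ^ (-s) = W0 at e2 ⊢
    generalize wn t β = w at e2 e4
    subst e2
    subst e4
    generalize hf F t β = H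
    generalize Real.sin β = a at e3 ⊢
    generalize Real.cos (2 * β) = c at e3 ⊢
    generalize Real.cos β = d at e3 ⊢
    generalize Real.sin (2 * β) = σ at e3 ⊢
    generalize Real.exp (-t) = E at e6 ⊢
    generalize Real.exp t = T at e6 ⊢
    linear_combination (4 * s * E ^ 2 * W1 * H * (T + E) / 2) * e3 +
      (2 * s * E * a * H * W1 * (1 - E ^ 2) + 4 * s * E * a * c * H * W1 * 0) * e6
  rw [h6, h1]
  nlinarith [h7, h8]

end Pool.Agent.H46.RD
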