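import Pool.Agent.H46.RD.Qd

/-!
# Numerical bounds for the moments
-/

open Complex MeasureTheory Set Filter Topology
open scoped ComplexConjugate Real

namespace Pool.Agent.H46.RD

open Pool.Agent.H15.Sig Pool.Agent.H36.SZ

/-- absolute values of the binomial coefficients of `-a` -/
noncomputable def cb (a : ℝ) (k : ℕ) : ℝ := ‖Ring.choose (((-a : ℝ)) : ℂ) k‖

theorem cb_zero (a : ℝ) : cb a 0 = 1 := by
  unfold cb
  rw [Ring.choose_zero_right, norm_one]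

theorem cb_nonneg (a : ℝ) (k : ℕ) : 0 ≤ cb a k := norm_nonneg _

theorem cb_succ {a : ℝ} (ha : 0 ≤ a) (k : ℕ) : cb a (k + 1) * (k + 1) = cb a k * (a + k) := by
  have h1 := Ring.choose_smul_choose (((-a : ℝ)) : ℂ) (Nat.le_succ k)
  have e1 : k.succ - k = 1 := by omega
  rw [e1, Ring.choose_one_right, Nat.choose_succ_self_right, nsmul_eq_mul] at h1
  have h2 := congrArg norm h1
  rw [norm_mul, norm_mul] at h2
  have e2 : ‖((k + 1 : ℕ) : ℂ)‖ = (k : ℝ) + 1 := by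
    rw [Complex.norm_natCast]; push_cast; ring
  have e3 : ‖(((-a : ℝ)) : ℂ) - (k : ℂ)‖ = a + k := by
    have : (((-a : ℝ)) : ℂ) - (k : ℂ) = ((-(a + k) : ℝ) : ℂ) := by push_cast; ring
    rw [this, Complex.norm_real, Real.norm_eq_abs, abs_neg, abs_of_nonneg]
    have : (0 : ℝ) ≤ k := Nat.cast_nonneg k
    linarith
  rw [e2, e3] at h2
  unfold cb
  linarith

theorem cb_one {a : ℝ} (ha : 0 ≤ a) : cb a 1 = a := by
  have h := cb_succ ha 0
  rw [cb_zero] at h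
  norm_num at h
  exact h

/-- partial sums for `a <= 1/4` -/
theorem cb_sum {a : ℝ} (ha : 0 ≤ a) (ha1 : a ≤ 1 / 4) (N : ℕ) :
    ∑ k ∈ Finset.range (N + 1), cb a k ^ 2 + (2 * (N : ℝ) + 3) * cb a (N + 1) ^ 2 ≤ 19 / 16 := by
  induction N with
  | zero =>
    rw [Finset.sum_range_succ, Finset.sum_range_zero, zero_add, zero_add, cb_zero, cb_one ha]
    norm_num
    nlinarith
  | succ N ih =>
    rw [Finset.sum_range_succ]
    have h1 := cb_succ ha (N + 1)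
    have hN : (0 : ℝ) ≤ N := Nat.cast_nonneg N
    have h2 : (2 * ((N + 1 : ℕ) : ℝ) + 3) * cb a (N + 1 + 1) ^ 2 ≤
        (2 * (N : ℝ) + 2) * cb a (N + 1) ^ 2 := by
      push_cast at h1 ⊢
      have h3 : cb a (N + 1 + 1) = cb a (N + 1) * (a + (N + 1)) / (N + 2) := by
        rw [eq_div_iff (by positivity)]
        linarith
      rw [h3, div_pow, mul_pow, ← mul_div_assoc, div_le_iff₀ (by positivity)]
      have h4 : (2 * ((N : ℝ) + 1) + 3) * (a + (N + 1)) ^ 2 ≤ (2 * (N : ℝ) + 2) * (N + 2) ^ 2 := by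
        have h5 : (a + ((N : ℝ) + 1)) ^ 2 ≤ (1 / 4 + ((N : ℝ) + 1)) ^ 2 :=
          pow_le_pow_left₀ (by positivity) (by linarith) 2
        nlinarith
      have h6 := mul_le_mul_of_nonneg_left h4 (sq_nonneg (cb a (N + 1)))
      nlinarith
    have e : (2 * (N : ℝ) + 3) * cb a (N + 1) ^ 2 =
        cb a (N + 1) ^ 2 + (2 * (N : ℝ) + 2) * cb a (N + 1) ^ 2 := by ring
    linarith

theorem Mo_eq_cb (a : ℝ) {ρ : ℝ} (h0 : 0 ≤ ρ) (h1 : ρ < 1) :
    HasSum (fun k : ℕ => cb a k ^ 2 * ρ ^ (2 * k)) ((2 * π)⁻¹ * Mo (-a) ρ) := by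
  have hpi := Real.pi_pos
  have h2 := (Mo_hasSum (-a) h0 h1).mul_left ((2 * π)⁻¹)
  refine h2.congr_fun ?_ |> fun h => h
  intro k
  unfold cb
  field_simp

theorem hasSum_le_partial {f : ℕ → ℝ} {S B : ℝ} (h : HasSum f S)
    (hB : ∀ N, ∑ k ∈ Finset.range (N + 1), f k ≤ B) : S ≤ B := by
  refine le_of_tendsto (h.tendsto_sum_nat.comp (tendsto_add_atTop_nat 1)) ?_
  exact Eventually.of_forall fun N => hB N

theorem Q_le {a ρ : ℝ} (ha : 0 ≤ a) (ha1 : a ≤ 1 / 4) (h0 : 0 ≤ ρ) (h1 : ρ < 1) :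
    (2 * π)⁻¹ * Mo (-a) ρ ≤ 19 / 16 := by
  refine hasSum_le_partial (Mo_eq_cb a h0 h1) fun N => ?_
  have h2 := cb_sum ha ha1 N
  have h3 : ∑ k ∈ Finset.range (N + 1), cb a k ^ 2 * ρ ^ (2 * k) ≤
      ∑ k ∈ Finset.range (N + 1), cb a k ^ 2 := by
    refine Finset.sum_le_sum fun k _ => ?_
    exact mul_le_of_le_one_right (by positivity) (pow_le_one₀ h0 h1.le)
  have h4 : 0 ≤ (2 * (N : ℝ) + 3) * cb a (N + 1) ^ 2 := by positivity
  linarith

/-- partial sums for `a <= 1/2`, `ρ <= 9/16` -/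
theorem cb_sum' {a ρ : ℝ} (ha : 0 ≤ a) (ha1 : a ≤ 1 / 2) (h0 : 0 ≤ ρ) (h1 : ρ ≤ 9 / 16) (N : ℕ) :
    ∑ k ∈ Finset.range (N + 2), cb a k ^ 2 * ρ ^ (2 * k) +
      (16 / 10) * (cb a (N + 2) ^ 2 * ρ ^ (2 * (N + 2))) ≤ 111 / 100 := by
  have hρ2 : ρ ^ 2 ≤ 81 / 256 := by nlinarith
  induction N with
  | zero =>
    rw [Finset.sum_range_succ, Finset.sum_range_succ, Finset.sum_range_zero, cb_zero, cb_one ha]
    have h2 := cb_succ ha 1
    rw [cb_one ha] at h2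
    norm_num at h2 ⊢
    have h3 : cb a 2 = a * (a + 1) / 2 := by linarith
    rw [h3]
    have h4 : a * (a + 1) / 2 ≤ 3 / 8 := by nlinarith
    have h4' : 0 ≤ a * (a + 1) / 2 := by positivity
    have h5 : a ^ 2 * ρ ^ 2 ≤ 1 / 4 * (81 / 256) := by
      apply mul_le_mul (by nlinarith) hρ2 (by positivity) (by norm_num)
    have h6 : (a * (a + 1) / 2) ^ 2 * ρ ^ 4 ≤ (3 / 8) ^ 2 * (81 / 256) ^ 2 := by
      apply mul_le_mul (pow_le_pow_left₀ h4' h4 2) _ (by positivity) (by norm_num)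
      calc ρ ^ 4 = (ρ ^ 2) ^ 2 := by ring
        _ ≤ (81 / 256) ^ 2 := pow_le_pow_left₀ (by positivity) hρ2 2
    nlinarith
  | succ N ih =>
    rw [Finset.sum_range_succ]
    have h2 := cb_succ ha (N + 2)
    have hN : (0 : ℝ) ≤ N := Nat.cast_nonneg N
    have h3 : cb a (N + 2 + 1) ≤ cb a (N + 2) := by
      push_cast at h2
      have hc := cb_nonneg a (N + 2)
      have h4 : cb a (N + 2 + 1) * (N + 2 + 1) ≤ cb a (N + 2) * (N + 2 + 1) := by
        rw [h2]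
        exact mul_le_mul_of_nonneg_left (by linarith) hc
      exact le_of_mul_le_mul_right h4 (by positivity)
    have h5 : cb a (N + 2 + 1) ^ 2 * ρ ^ (2 * (N + 2 + 1)) ≤
        81 / 256 * (cb a (N + 2) ^ 2 * ρ ^ (2 * (N + 2))) := by
      have e : ρ ^ (2 * (N + 2 + 1)) = ρ ^ 2 * ρ ^ (2 * (N + 2)) := by
        rw [← pow_add]; congr 1; ring
      rw [e]
      have h6 : cb a (N + 2 + 1) ^ 2 ≤ cb a (N + 2) ^ 2 :=
        pow_le_pow_left₀ (cb_nonneg _ _) h3 2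
      have h7 : ρ ^ 2 * ρ ^ (2 * (N + 2)) ≤ 81 / 256 * ρ ^ (2 * (N + 2)) :=
        mul_le_mul_of_nonneg_right hρ2 (by positivity)
      calc cb a (N + 2 + 1) ^ 2 * (ρ ^ 2 * ρ ^ (2 * (N + 2))) ≤
          cb a (N + 2) ^ 2 * (81 / 256 * ρ ^ (2 * (N + 2))) :=
            mul_le_mul h6 h7 (by positivity) (by positivity)
        _ = _ := by ring
    have h8 : 0 ≤ cb a (N + 2) ^ 2 * ρ ^ (2 * (N + 2)) := by positivity
    have e2 : N + 1 + 2 = N + 2 + 1 := by ring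
    rw [show N + 1 + 1 = N + 2 by ring, e2] at *
    linarith

theorem Q_le' {a ρ : ℝ} (ha : 0 ≤ a) (ha1 : a ≤ 1 / 2) (h0 : 0 ≤ ρ) (h1 : ρ ≤ 9 / 16) :
    (2 * π)⁻¹ * Mo (-a) ρ ≤ 111 / 100 := by
  refine hasSum_le_partial (Mo_eq_cb a h0 (by linarith)) fun N => ?_
  have h2 := cb_sum' ha ha1 h0 h1 N
  rw [Finset.sum_range_succ] at h2
  have h4 : 0 ≤ cb a (N + 1) ^ 2 * ρ ^ (2 * (N + 1)) := by positivity
  have h5 : 0 ≤ (16 / 10) * (cb a (N + 2) ^ 2 * ρ ^ (2 * (N + 2))) := by positivity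
  linarith

theorem Mo_ge {p ρ : ℝ} (h0 : 0 ≤ ρ) (h1 : ρ < 1) : 2 * π * (1 + p ^ 2 * ρ ^ 2) ≤ Mo p ρ := by
  have hpi := Real.pi_pos
  have h2 := sum_le_hasSum (Finset.range 2) (fun k _ => by positivity) (Mo_hasSum p h0 h1)
  rw [Finset.sum_range_succ, Finset.sum_range_succ, Finset.sum_range_zero,
    Ring.choose_zero_right, Ring.choose_one_right] at h2
  rw [norm_real, Real.norm_eq_abs, sq_abs] at h2
  refine le_trans (le_of_eq ?_) h2
  simp
  ring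

end Pool.Agent.H46.RD
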