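import Pool.Agent.H46.RD.Tz

/-!
# The quadratic term
-/

open Complex MeasureTheory Set Filter Topology
open scoped ComplexConjugate Real

namespace Pool.Agent.H46.RD

open Pool.Agent.H15.Sig Pool.Agent.H36.SZ

variable {F : ℂ → ℂ} {b : ℕ → ℂ} {β : ℝ}

/-- the coefficients of `F - J` -/
noncomputable def dd (b : ℕ → ℂ) (n : ℕ) : ℂ := b n - if n = 1 then 1 else 0

theorem wn_eq (t θ : ℝ) : wn t θ = w1 (Real.exp (-2 * t)) (2 * θ) := by
  unfold wn w1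
  ring

theorem ec_add_pi (θ : ℝ) : ec (θ + π) = -ec θ := by
  unfold ec
  rw [show -(((θ + π : ℝ) : ℂ) * I) = -(θ * I) + -(π * I) by push_cast; ring, Complex.exp_add,
    Complex.exp_neg (π * I), Complex.exp_pi_mul_I]
  ring

theorem ec_two (θ : ℝ) : ec (2 * θ) = ec θ ^ 2 := by
  unfold ec
  rw [← Complex.exp_nat_mul]
  congr 1
  push_cast
  ring

theorem ec_per : Function.Periodic ec (2 * π) := by
  intro θ
  rw [show θ + 2 * π = (θ + π) + π by ring, ec_add_pi, ec_add_pi, neg_neg]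

/-- partial sums, split into even and odd parts -/
theorem sum_split (d : ℕ → ℂ) (hd : d 0 = 0) (u : ℂ) (N : ℕ) :
    ∑ n ∈ Finset.range (2 * N + 1), d n * u ^ n =
      u * (∑ j ∈ Finset.range N, d (2 * j + 1) * (u ^ 2) ^ j) +
      u ^ 2 * ∑ j ∈ Finset.range N, d (2 * j + 2) * (u ^ 2) ^ j := by
  induction N with
  | zero => simp [hd]
  | succ N ih =>
    rw [show 2 * (N + 1) + 1 = (2 * N + 1) + 1 + 1 by ring, Finset.sum_range_succ,
      Finset.sum_range_succ, ih, Finset.sum_range_succ, Finset.sum_range_succ]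
    rw [← pow_mul]
    ring

theorem sum_split_r (f : ℕ → ℝ) (N : ℕ) :
    ∑ n ∈ Finset.range (2 * N + 1), f n = f 0 +
      (∑ j ∈ Finset.range N, f (2 * j + 1)) + ∑ j ∈ Finset.range N, f (2 * j + 2) := by
  induction N with
  | zero => simp
  | succ N ih =>
    rw [show 2 * (N + 1) + 1 = (2 * N + 1) + 1 + 1 by ring, Finset.sum_range_succ,
      Finset.sum_range_succ, ih, Finset.sum_range_succ, Finset.sum_range_succ]
    ring

theorem paral (a c : ℂ) : ‖a + c‖ ^ 2 + ‖-a + c‖ ^ 2 = 2 * (‖a‖ ^ 2 + ‖c‖ ^ 2) := by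
  simp only [← normSq_eq_norm_sq, normSq_apply, add_re, add_im, neg_re, neg_im]
  ring

/-- the partial sums of `D` -/
theorem quad_N (d : ℕ → ℂ) (hd : d 0 = 0) {t : ℝ} (ht : 0 < t) (q : ℝ) (N : ℕ) :
    (2 * π)⁻¹ * ∫ θ in (-π)..π, wn t θ ^ q *
        ‖∑ n ∈ Finset.range (2 * N + 1), d n * ((Real.exp (-t) : ℝ) * ec θ) ^ n‖ ^ 2 =
      Real.exp (-2 * t) * Tq q (Real.exp (-2 * t))
        (fun j => d (2 * j + 1) * (Real.exp (-2 * t) : ℝ) ^ j) N +
      Real.exp (-2 * t) ^ 2 * Tq q (Real.exp (-2 * t))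
        (fun j => d (2 * j + 2) * (Real.exp (-2 * t) : ℝ) ^ j) N := by
  have hpi := Real.pi_pos
  set ρ : ℝ := Real.exp (-2 * t) with hρ
  have hρ0 : 0 < ρ := Real.exp_pos _
  have hρ1 : ρ < 1 := R_lt ht
  set x : ℝ := Real.exp (-t) with hx
  have hx2 : x ^ 2 = ρ := by
    rw [hx, hρ, ← Real.exp_nat_mul]; congr 1; push_cast; ring
  have hx0 : 0 < x := Real.exp_pos _
  set O : ℝ → ℂ := fun ψ => ∑ j ∈ Finset.range N, (d (2 * j + 1) * (ρ : ℂ) ^ j) * ec ψ ^ j with hO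
  set E : ℝ → ℂ := fun ψ => ∑ j ∈ Finset.range N, (d (2 * j + 2) * (ρ : ℂ) ^ j) * ec ψ ^ j with hE
  have hOc : Continuous O := continuous_finsetSum _ fun j _ =>
    continuous_const.mul (continuous_ec.pow j)
  have hEc : Continuous E := continuous_finsetSum _ fun j _ =>
    continuous_const.mul (continuous_ec.pow j)
  have hsum : ∀ θ : ℝ, ∑ n ∈ Finset.range (2 * N + 1), d n * ((x : ℂ) * ec θ) ^ n =
      ((x : ℂ) * ec θ) * O (2 * θ) + ((x : ℂ) * ec θ) ^ 2 * E (2 * θ) := by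
    intro θ
    rw [sum_split d hd]
    have hu2 : ((x : ℂ) * ec θ) ^ 2 = (ρ : ℂ) * ec (2 * θ) := by
      rw [mul_pow, ec_two, ← hx2]; push_cast; ring
    simp only [hO, hE, hu2]
    congr 2
    · refine Finset.sum_congr rfl fun j _ => ?_
      rw [mul_pow]; ring
    · refine Finset.sum_congr rfl fun j _ => ?_
      rw [mul_pow]; ring
  set f : ℝ → ℝ := fun θ => wn t θ ^ q *
    ‖((x : ℂ) * ec θ) * O (2 * θ) + ((x : ℂ) * ec θ) ^ 2 * E (2 * θ)‖ ^ 2 with hf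
  have hfc : Continuous f := by
    have h1 : Continuous fun θ : ℝ => O (2 * θ) := hOc.comp (by fun_prop)
    have h2 : Continuous fun θ : ℝ => E (2 * θ) := hEc.comp (by fun_prop)
    have h3 : Continuous fun θ : ℝ => (x : ℂ) * ec θ := continuous_const.mul continuous_ec
    exact (wq_cont ht q).mul (((h3.mul h1).add ((h3.pow 2).mul h2)).norm.pow 2)
  have hwper : ∀ θ : ℝ, wn t (θ + π) = wn t θ := by
    intro θ
    unfold wn
    rw [show 2 * (θ + π) = 2 * θ + 2 * π by ring, Real.cos_add_two_pi]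
  have hOper : Function.Periodic O (2 * π) := by
    intro ψ
    simp only [hO, ec_per ψ]
  have hEper : Function.Periodic E (2 * π) := by
    intro ψ
    simp only [hE, ec_per ψ]
  have hfpi : ∀ θ : ℝ, f θ + f (θ + π) = 2 * (wn t θ ^ q *
      (ρ * ‖O (2 * θ)‖ ^ 2 + ρ ^ 2 * ‖E (2 * θ)‖ ^ 2)) := by
    intro θ
    have e1 : O (2 * (θ + π)) = O (2 * θ) := by
      rw [show 2 * (θ + π) = 2 * θ + 2 * π by ring]; exact hOper _
    have e2 : E (2 * (θ + π)) = E (2 * θ) := by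
      rw [show 2 * (θ + π) = 2 * θ + 2 * π by ring]; exact hEper _
    simp only [hf]
    rw [hwper, e1, e2, ec_add_pi]
    have h1 := paral (((x : ℂ) * ec θ) * O (2 * θ)) (((x : ℂ) * ec θ) ^ 2 * E (2 * θ))
    have e3 : ((x : ℂ) * -ec θ) * O (2 * θ) + ((x : ℂ) * -ec θ) ^ 2 * E (2 * θ) =
        -(((x : ℂ) * ec θ) * O (2 * θ)) + ((x : ℂ) * ec θ) ^ 2 * E (2 * θ) := by ring
    rw [e3]
    have e4 : ‖((x : ℂ) * ec θ) * O (2 * θ)‖ ^ 2 = ρ * ‖O (2 * θ)‖ ^ 2 := by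
      rw [norm_mul, norm_mul_ec hx0.le, mul_pow, hx2]
    have e5 : ‖((x : ℂ) * ec θ) ^ 2 * E (2 * θ)‖ ^ 2 = ρ ^ 2 * ‖E (2 * θ)‖ ^ 2 := by
      rw [norm_mul, norm_pow, norm_mul_ec hx0.le, mul_pow, hx2]
    rw [e4, e5] at h1
    linear_combination (wn t θ ^ q) * h1
  have hfper : Function.Periodic f (2 * π) := by
    intro θ
    have h1 := hfpi θ
    have h2 := hfpi (θ + π)
    have e1 : O (2 * (θ + π)) = O (2 * θ) := by
      rw [show 2 * (θ + π) = 2 * θ + 2 * π by ring]; exact hOper _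
    have e2 : E (2 * (θ + π)) = E (2 * θ) := by
      rw [show 2 * (θ + π) = 2 * θ + 2 * π by ring]; exact hEper _
    rw [e1, e2, hwper] at h2
    rw [show θ + 2 * π = θ + π + π by ring]
    linarith
  have hshift : ∫ θ in (-π)..π, f (θ + π) = ∫ θ in (-π)..π, f θ := by
    rw [intervalIntegral.integral_comp_add_right f π]
    have h2 := hfper.intervalIntegral_add_eq (-π + π) (-π)
    rw [show -π + π + 2 * π = π + π by ring, show -π + 2 * π = π by ring] at h2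
    exact h2
  have hfc2 : Continuous fun θ : ℝ => f (θ + π) := hfc.comp (by fun_prop)
  set g : ℝ → ℝ := fun ψ => w1 ρ ψ ^ q * (ρ * ‖O ψ‖ ^ 2 + ρ ^ 2 * ‖E ψ‖ ^ 2) with hg
  have hgc : Continuous g := (w1_cont hρ0.le hρ1 q).mul
    ((continuous_const.mul (hOc.norm.pow 2)).add (continuous_const.mul (hEc.norm.pow 2)))
  have hgper : Function.Periodic g (2 * π) := by
    intro ψ
    simp only [hg]
    have e1 : O (ψ + 2 * π) = O ψ := hOper ψ
    have e2 : E (ψ + 2 * π) = E ψ := hEper ψ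
    rw [e1, e2]
    unfold w1
    rw [Real.cos_add_two_pi]
  have h1 : ∫ θ in (-π)..π, f θ = ∫ ψ in (-π)..π, g ψ := by
    rw [← integral_two_mul hgper hgc]
    have h2 : (∫ θ in (-π)..π, f θ) + ∫ θ in (-π)..π, f (θ + π) =
        ∫ θ in (-π)..π, 2 * g (2 * θ) := by
      rw [← intervalIntegral.integral_add (hfc.intervalIntegrable _ _)
        (hfc2.intervalIntegrable _ _)]
      refine intervalIntegral.integral_congr fun θ _ => ?_
      rw [hfpi]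
      simp only [hg]
      rw [wn_eq]
    rw [hshift, intervalIntegral.integral_const_mul] at h2
    linarith
  have h2 : ∫ θ in (-π)..π, wn t θ ^ q *
        ‖∑ n ∈ Finset.range (2 * N + 1), d n * ((x : ℂ) * ec θ) ^ n‖ ^ 2 =
      ∫ θ in (-π)..π, f θ := by
    refine intervalIntegral.integral_congr fun θ _ => ?_
    simp only [hf, hsum θ]
  rw [h2, h1]
  have i1 : IntervalIntegrable (fun ψ : ℝ => ρ * (w1 ρ ψ ^ q * ‖O ψ‖ ^ 2)) volume (-π) π :=
    (continuous_const.mul ((w1_cont hρ0.le hρ1 q).mul (hOc.norm.pow 2))).intervalIntegrable _ _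
  have i2 : IntervalIntegrable (fun ψ : ℝ => ρ ^ 2 * (w1 ρ ψ ^ q * ‖E ψ‖ ^ 2)) volume (-π) π :=
    (continuous_const.mul ((w1_cont hρ0.le hρ1 q).mul (hEc.norm.pow 2))).intervalIntegrable _ _
  have h3 : ∫ ψ in (-π)..π, g ψ = ρ * (∫ ψ in (-π)..π, w1 ρ ψ ^ q * ‖O ψ‖ ^ 2) +
      ρ ^ 2 * ∫ ψ in (-π)..π, w1 ρ ψ ^ q * ‖E ψ‖ ^ 2 := by
    rw [← intervalIntegral.integral_const_mul, ← intervalIntegral.integral_const_mul,
      ← intervalIntegral.integral_add i1 i2]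
    refine intervalIntegral.integral_congr fun ψ _ => ?_
    simp only [hg]
    ring
  rw [h3]
  unfold Tq
  simp only [hO, hE]
  ring

/-- the bound for the partial sums -/
theorem quad_N_le (h : Nrm F b β) {t : ℝ} (ht : 0 < t) (q : ℝ) (N : ℕ) :
    (2 * π)⁻¹ * ∫ θ in (-π)..π, wn t θ ^ q *
        ‖∑ n ∈ Finset.range (2 * (N + 1) + 1), dd b n * ((Real.exp (-t) : ℝ) * ec θ) ^ n‖ ^ 2 ≤
      Real.exp (-2 * t) * ((2 * π)⁻¹ * Mo (2 * q) (Real.exp (-2 * t))) * (1 - β) ^ 2 +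
      Real.exp (-2 * t) ^ 2 * ((1 + (2 * π)⁻¹ * Mo (2 * q) (Real.exp (-2 * t))) / 4) *
        (1 - β ^ 2) := by
  have hpi := Real.pi_pos
  set ρ : ℝ := Real.exp (-2 * t) with hρ
  have hρ0 : 0 < ρ := Real.exp_pos _
  have hρ1 : ρ < 1 := R_lt ht
  set Q : ℝ := (2 * π)⁻¹ * Mo (2 * q) ρ with hQ
  have hQ1 : 1 ≤ Q := by
    have h1 := vc_zero_ge (q := q) hρ0.le hρ1
    have h2 := vc_zero_sq (q := q) hρ0.le hρ1
    nlinarith
  have hd0 : dd b 0 = 0 := by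
    unfold dd
    rw [h.sig.b0]
    simp
  rw [quad_N (dd b) hd0 ht q (N + 1)]
  have hO := Tq_odd (q := q) hρ0.le hρ1 (fun j => dd b (2 * j + 1) * (ρ : ℂ) ^ j) N
  have hE := Tq_even (q := q) hρ0.le hρ1 (fun j => dd b (2 * j + 2) * (ρ : ℂ) ^ j) (N + 1)
  have ha0 : ‖dd b (2 * 0 + 1) * (ρ : ℂ) ^ 0‖ ^ 2 = (1 - β) ^ 2 := by
    unfold dd
    have e : b (2 * 0 + 1) - (if 2 * 0 + 1 = 1 then 1 else 0) = ((β - 1 : ℝ) : ℂ) := by
      norm_num
      rw [h.b1]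
    rw [e, pow_zero, mul_one, Complex.norm_real, Real.norm_eq_abs, sq_abs]
    ring
  have hρn : ∀ j : ℕ, ‖((ρ : ℂ)) ^ j‖ ^ 2 = (ρ ^ 2) ^ j := by
    intro j
    rw [norm_pow, Complex.norm_real, Real.norm_of_nonneg hρ0.le, ← pow_mul, ← pow_mul, mul_comm]
  have hρj : ∀ j : ℕ, (ρ ^ 2) ^ j ≤ 1 := fun j => pow_le_one₀ (by positivity) (by nlinarith)
  have hdb : ∀ n, 2 ≤ n → dd b n = b n := by
    intro n hn
    unfold dd
    rw [if_neg (by omega), sub_zero]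
  have hO2 : ∑ j ∈ Finset.range N, (2 * (j : ℝ) + 3) *
      ‖dd b (2 * (j + 1) + 1) * (ρ : ℂ) ^ (j + 1)‖ ^ 2 ≤
      ρ * ∑ j ∈ Finset.range N, (2 * (j : ℝ) + 3) * ‖b (2 * (j + 1) + 1)‖ ^ 2 := by
    rw [Finset.mul_sum]
    refine Finset.sum_le_sum fun j _ => ?_
    rw [hdb _ (by omega), norm_mul, mul_pow, hρn, pow_succ]
    have h1 := hρj j
    have h2 : (ρ ^ 2) ^ j * ρ ^ 2 ≤ ρ := by
      have : (ρ ^ 2) ^ j * ρ ^ 2 ≤ 1 * ρ ^ 2 := mul_le_mul_of_nonneg_right h1 (by positivity)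
      nlinarith
    have h3 : 0 ≤ (2 * (j : ℝ) + 3) * ‖b (2 * (j + 1) + 1)‖ ^ 2 := by positivity
    calc (2 * (j : ℝ) + 3) * (‖b (2 * (j + 1) + 1)‖ ^ 2 * ((ρ ^ 2) ^ j * ρ ^ 2)) =
        ((2 * (j : ℝ) + 3) * ‖b (2 * (j + 1) + 1)‖ ^ 2) * ((ρ ^ 2) ^ j * ρ ^ 2) := by ring
      _ ≤ ((2 * (j : ℝ) + 3) * ‖b (2 * (j + 1) + 1)‖ ^ 2) * ρ :=
          mul_le_mul_of_nonneg_left h2 h3
      _ = _ := by ring
  have hE2 : ∑ j ∈ Finset.range (N + 1), (2 * (j : ℝ) + 2) *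
      ‖dd b (2 * j + 2) * (ρ : ℂ) ^ j‖ ^ 2 ≤
      ∑ j ∈ Finset.range (N + 1), (2 * (j : ℝ) + 2) * ‖b (2 * j + 2)‖ ^ 2 := by
    refine Finset.sum_le_sum fun j _ => ?_
    rw [hdb _ (by omega), norm_mul, mul_pow, hρn]
    have h1 := hρj j
    have h3 : 0 ≤ (2 * (j : ℝ) + 2) * ‖b (2 * j + 2)‖ ^ 2 := by positivity
    calc (2 * (j : ℝ) + 2) * (‖b (2 * j + 2)‖ ^ 2 * (ρ ^ 2) ^ j) =
        ((2 * (j : ℝ) + 2) * ‖b (2 * j + 2)‖ ^ 2) * (ρ ^ 2) ^ j := by ring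
      _ ≤ ((2 * (j : ℝ) + 2) * ‖b (2 * j + 2)‖ ^ 2) * 1 :=
          mul_le_mul_of_nonneg_left h1 h3
      _ = _ := by ring
  have harea := h.sig.area (2 * (N + 1) + 1)
  rw [sum_split_r, Finset.sum_range_succ'] at harea
  have hb1 : ‖b (2 * 0 + 1)‖ ^ 2 = β ^ 2 := by
    rw [show 2 * 0 + 1 = 1 by norm_num, h.b1, Complex.norm_real, Real.norm_eq_abs, sq_abs]
  rw [hb1] at harea
  have e1 : ∑ k ∈ Finset.range N, ((2 * (k + 1) + 1 : ℕ) : ℝ) * ‖b (2 * (k + 1) + 1)‖ ^ 2 =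
      ∑ j ∈ Finset.range N, (2 * (j : ℝ) + 3) * ‖b (2 * (j + 1) + 1)‖ ^ 2 := by
    refine Finset.sum_congr rfl fun j _ => ?_
    push_cast
    ring
  have e2 : ∑ j ∈ Finset.range (N + 1), ((2 * j + 2 : ℕ) : ℝ) * ‖b (2 * j + 2)‖ ^ 2 =
      ∑ j ∈ Finset.range (N + 1), (2 * (j : ℝ) + 2) * ‖b (2 * j + 2)‖ ^ 2 := by
    refine Finset.sum_congr rfl fun j _ => ?_
    push_cast
    ring
  rw [e1, e2] at harea
  norm_num at harea
  rw [ha0] at hO
  set SO : ℝ := ∑ j ∈ Finset.range N, (2 * (j : ℝ) + 3) * ‖b (2 * (j + 1) + 1)‖ ^ 2 with hSO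
  set SE : ℝ := ∑ j ∈ Finset.range (N + 1), (2 * (j : ℝ) + 2) * ‖b (2 * j + 2)‖ ^ 2 with hSE
  have hK : 0 ≤ (1 + Q) / 4 := by linarith
  have h1 : ρ * Tq q ρ (fun j => dd b (2 * j + 1) * (ρ : ℂ) ^ j) (N + 1) ≤
      ρ * (Q * (1 - β) ^ 2 + (1 + Q) / 4 * (ρ * SO)) := by
    refine mul_le_mul_of_nonneg_left ?_ hρ0.le
    refine hO.trans ?_
    have := mul_le_mul_of_nonneg_left hO2 hK
    linarith
  have h2 : ρ ^ 2 * Tq q ρ (fun j => dd b (2 * j + 2) * (ρ : ℂ) ^ j) (N + 1) ≤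
      ρ ^ 2 * ((1 + Q) / 4 * SE) := by
    refine mul_le_mul_of_nonneg_left ?_ (by positivity)
    exact hE.trans (mul_le_mul_of_nonneg_left hE2 hK)
  have h3 : ρ ^ 2 * ((1 + Q) / 4) * (SO + SE) ≤ ρ ^ 2 * ((1 + Q) / 4) * (1 - β ^ 2) := by
    refine mul_le_mul_of_nonneg_left ?_ (by positivity)
    linarith
  calc _ ≤ ρ * (Q * (1 - β) ^ 2 + (1 + Q) / 4 * (ρ * SO)) + ρ ^ 2 * ((1 + Q) / 4 * SE) :=
        add_le_add h1 h2
    _ = ρ * Q * (1 - β) ^ 2 + ρ ^ 2 * ((1 + Q) / 4) * (SO + SE) := by ring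
    _ ≤ _ := by linarith

/-- the quadratic term -/
theorem quad_le (h : Nrm F b β) {t : ℝ} (ht : 0 < t) (q : ℝ) :
    (2 * π)⁻¹ * ∫ θ in (-π)..π, wn t θ ^ q * ‖G F t θ - G J t θ‖ ^ 2 ≤
      Real.exp (-2 * t) * ((2 * π)⁻¹ * Mo (2 * q) (Real.exp (-2 * t))) * (1 - β) ^ 2 +
      Real.exp (-2 * t) ^ 2 * ((1 + (2 * π)⁻¹ * Mo (2 * q) (Real.exp (-2 * t))) / 4) *
        (1 - β ^ 2) := by
  have hpi := Real.pi_pos
  set x : ℝ := Real.exp (-t) with hx
  have hx0 : 0 < x := Real.exp_pos _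
  have hx1 : x < 1 := Real.exp_lt_one_iff.2 (by linarith)
  have hu : ∀ θ : ℝ, ‖(x : ℂ) * ec θ‖ < 1 := fun θ => by rw [norm_mul_ec hx0.le]; exact hx1
  have hD : ∀ θ : ℝ, HasSum (fun n : ℕ => dd b n * ((x : ℂ) * ec θ) ^ n)
      (G F t θ - G J t θ) := by
    intro θ
    have h1 := h.sig.hasSum_pw (hu θ)
    have h2 : HasSum (fun n : ℕ => (if n = 1 then (1:ℂ) else 0) * ((x : ℂ) * ec θ) ^ n)
        ((if (1:ℕ) = 1 then (1:ℂ) else 0) * ((x : ℂ) * ec θ) ^ 1) := by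
      apply hasSum_single
      intro n hn
      rw [if_neg hn, zero_mul]
    have h3 := h1.sub h2
    have e1 : pw b ((x : ℂ) * ec θ) - (if (1:ℕ) = 1 then (1:ℂ) else 0) * ((x : ℂ) * ec θ) ^ 1 =
        G F t θ - G J t θ := by
      rw [G_eq h.sig ht θ]
      have e2 : G J t θ = exp (t + θ * I) + (x : ℂ) * ec θ := by
        unfold G J ec
        rw [hx, ← Complex.exp_neg, Complex.ofReal_exp, ← Complex.exp_add]
        congr 2
        push_cast
        ring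
      rw [e2, if_pos rfl, pow_one]
      ring
    rw [e1] at h3
    refine h3.congr_fun ?_ |> fun h => h
    intro n
    unfold dd
    ring
  have hsumm : Summable fun n : ℕ => ‖dd b n‖ * x ^ n := by
    have h1 := (hD 0).summable.norm
    refine h1.congr fun n => ?_
    rw [norm_mul, norm_pow, norm_mul_ec hx0.le]
  set M : ℝ := ∑' n, ‖dd b n‖ * x ^ n with hM
  have hM0 : 0 ≤ M := tsum_nonneg fun n => by positivity
  have hlim : Tendsto (fun N : ℕ => (2 * π)⁻¹ * ∫ θ in (-π)..π, wn t θ ^ q *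
      ‖∑ n ∈ Finset.range (2 * (N + 1) + 1), dd b n * ((x : ℂ) * ec θ) ^ n‖ ^ 2) atTop
      (𝓝 ((2 * π)⁻¹ * ∫ θ in (-π)..π, wn t θ ^ q * ‖G F t θ - G J t θ‖ ^ 2)) := by
    refine Tendsto.const_mul _ ?_
    refine intervalIntegral.tendsto_integral_filter_of_dominated_convergence
      (fun θ => wn t θ ^ q * M ^ 2) ?_ ?_ ?_ ?_
    · refine Eventually.of_forall fun N => ?_
      have h1 : Continuous fun θ : ℝ =>
          ∑ n ∈ Finset.range (2 * (N + 1) + 1), dd b n * ((x : ℂ) * ec θ) ^ n :=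
        continuous_finsetSum _ fun n _ =>
          continuous_const.mul ((continuous_const.mul continuous_ec).pow n)
      exact ((wq_cont ht q).mul (h1.norm.pow 2)).aestronglyMeasurable
    · refine Eventually.of_forall fun N => Eventually.of_forall fun θ _ => ?_
      have hw : 0 ≤ wn t θ ^ q := Real.rpow_nonneg (wn_pos ht θ).le _
      rw [norm_mul, Real.norm_of_nonneg hw, Real.norm_of_nonneg (by positivity)]
      refine mul_le_mul_of_nonneg_left ?_ hw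
      refine pow_le_pow_left₀ (norm_nonneg _) ?_ 2
      refine (norm_sum_le _ _).trans ?_
      have h2 : ∀ n, ‖dd b n * ((x : ℂ) * ec θ) ^ n‖ = ‖dd b n‖ * x ^ n := by
        intro n
        rw [norm_mul, norm_pow, norm_mul_ec hx0.le]
      simp_rw [h2]
      exact hsumm.sum_le_tsum _ fun n _ => by positivity
    · exact ((wq_cont ht q).mul continuous_const).intervalIntegrable _ _
    · refine Eventually.of_forall fun θ _ => ?_
      have h3 := (hD θ).tendsto_sum_nat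
      have h4 : Tendsto (fun N : ℕ => 2 * (N + 1) + 1) atTop atTop :=
        tendsto_atTop_mono (fun n => by simp only [id]; omega) tendsto_id
      exact ((h3.comp h4).norm.pow 2).const_mul _
  refine le_of_tendsto hlim ?_
  exact Eventually.of_forall fun N => quad_N_le h ht q N

end Pool.Agent.H46.RD
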