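import Pool.Agent.H46.RD.Fn
import Pool.Agent.H15.Sig.Final

/-!
# The first supremum for orders below two

`sigma_low`: `7/4 <= lambda < 2`, all radii; `3/2 <= lambda < 2`, radii at least `4/3`.
-/

open Complex MeasureTheory Set Filter Topology
open scoped ComplexConjugate Real

namespace Pool.Agent.H46.RD

open Pool.Agent.H15.Sig Pool.Agent.H36.SZ

variable {F : ℂ → ℂ} {b : ℕ → ℂ} {β : ℝ}

/-- from the comparison on the circle to the integrals of `F` -/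
theorem le_J_of (h : IsSig F b) {lam r : ℝ} (hr : 1 < r)
    (H : ∀ {F' : ℂ → ℂ} {b' : ℕ → ℂ} {β : ℝ}, Nrm F' b' β → Cmp b' β (lam / 2) (Real.log r)) :
    ∫ t in (-π)..π, ‖F (r * exp (t * I))‖ ^ lam ≤
      r ^ lam * Mo (lam / 2) ((r⁻¹) ^ 2) ∧ (‖b 1‖ < 1 →
    ∫ t in (-π)..π, ‖F (r * exp (t * I))‖ ^ lam <
      r ^ lam * Mo (lam / 2) ((r⁻¹) ^ 2)) := by
  obtain ⟨φ, hN⟩ := exists_rot h
  have hr0 : 0 < r := by linarith
  have hx0 : 0 < r⁻¹ := inv_pos.2 hr0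
  have hx1 : r⁻¹ < 1 := inv_lt_one_of_one_lt₀ hr
  have h1 := H hN
  unfold Cmp at h1
  have e1 : Real.exp (-2 * Real.log r) = (r⁻¹) ^ 2 := by
    rw [show -2 * Real.log r = (2 : ℕ) * (-Real.log r) by push_cast; ring, Real.exp_nat_mul,
      Real.exp_neg, Real.exp_log hr0]
  have e2 : ∀ θ : ℝ, nF (fun n => b n * ((exp (φ * I))⁻¹) ^ (n + 1)) (Real.log r) θ ^ (lam / 2) =
      ‖1 + ((r⁻¹ : ℝ) * ec θ) * pw (fun n => b n * ((exp (φ * I))⁻¹) ^ (n + 1))
        ((r⁻¹ : ℝ) * ec θ)‖ ^ lam := by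
    intro θ
    unfold nF
    rw [Real.exp_neg, Real.exp_log hr0, ← Real.rpow_natCast, ← Real.rpow_mul (norm_nonneg _)]
    congr 1
    push_cast
    ring
  simp_rw [e2] at h1
  rw [e1] at h1
  have h2 : ∀ t : ℝ, ‖F (exp (φ * I) * (r * exp (t * I)))‖ ^ lam = r ^ lam *
      ‖1 + ((r⁻¹ : ℝ) * ec t) * pw (fun n => b n * ((exp (φ * I))⁻¹) ^ (n + 1))
        ((r⁻¹ : ℝ) * ec t)‖ ^ lam := by
    intro t
    have h3 := hN.sig.norm_circle hx0 hx1 t
    rw [inv_inv] at h3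
    have h4 : ‖(exp (φ * I))⁻¹ * F (exp (φ * I) * (r * exp (t * I)))‖ =
        ‖F (exp (φ * I) * (r * exp (t * I)))‖ := by
      rw [norm_mul, norm_inv, norm_exp_ofReal_mul_I]; simp
    rw [← h4, h3, Real.mul_rpow hr0.le (norm_nonneg _)]
  rw [← integral_rot (g := F) φ]
  simp_rw [h2]
  rw [intervalIntegral.integral_const_mul]
  exact ⟨mul_le_mul_of_nonneg_left h1.1 (by positivity),
    fun hb => mul_lt_mul_of_pos_left (h1.2 hb) (by positivity)⟩

/-- the conclusion for one order and one radius -/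
def Ext (lam r : ℝ) : Prop :=
  IsGreatest {x : ℝ | ∃ F : ℂ → ℂ, ClassSigma F ∧ x = integralMean lam r F}
      (integralMean lam r (fun z => z + z⁻¹)) ∧
    ∀ F : ℂ → ℂ, ClassSigma F →
      (integralMean lam r F = integralMean lam r (fun z => z + z⁻¹) ↔
        ∃ c : ℂ, ‖c‖ = 1 ∧ ∀ z : ℂ, 1 < ‖z‖ → F z = z + c / z)

theorem ext_of {lam r : ℝ} (hl : 0 < lam) (hr1 : 1 < r)
    (H : ∀ {F' : ℂ → ℂ} {b' : ℕ → ℂ} {β : ℝ}, Nrm F' b' β → Cmp b' β (lam / 2) (Real.log r)) :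
    Ext lam r := by
  have hJ : integralMean lam r (fun z => z + z⁻¹) =
      ((2 * π)⁻¹ * (r ^ lam * Mo (lam / 2) ((r⁻¹) ^ 2))) ^ (1 / lam) := by
    rw [integralMean_eq, J_moment hr1]
  refine ⟨⟨⟨_, classSigma_J, rfl⟩, ?_⟩, ?_⟩
  · rintro x ⟨F, hF, rfl⟩
    obtain ⟨b, hb⟩ := hF.isSig
    rw [hJ]
    exact (integralMean_mono hl).1 (le_J_of hb hr1 H).1
  · intro F hF
    obtain ⟨b, hb⟩ := hF.isSig
    constructor
    · intro he
      by_cases h1 : ‖b 1‖ < 1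
      · exfalso
        have := (integralMean_mono hl).2 ((le_J_of hb hr1 H).2 h1)
        rw [← hJ, he] at this
        exact lt_irrefl _ this
      · exact ⟨b 1, hb.eq_of_norm_one h1⟩
    · rintro ⟨c, hc, hFc⟩
      exact integralMean_rotJ hc hFc hr1

theorem ext_low {lam r : ℝ} (h2 : lam < 2) (hr : 1 < r)
    (h : 7 / 4 ≤ lam ∨ (3 / 2 ≤ lam ∧ 4 / 3 ≤ r)) : Ext lam r := by
  have hl : 0 < lam := by
    rcases h with h | h
    · linarith
    · linarith [h.1]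
  have hr0 : 0 < r := by linarith
  have ht : 0 < Real.log r := Real.log_pos hr
  refine ext_of hl hr fun {F' b' β} hN => ?_
  rw [show lam / 2 = 1 - (1 - lam / 2) by ring]
  rcases h with h | h
  · exact cmp74 hN (by linarith) (by linarith) ht
  · have h1 := h.1
    refine cmp32 hN (by linarith) (by linarith) ht ?_
    rw [show -2 * Real.log r = (2 : ℕ) * (-Real.log r) by push_cast; ring, Real.exp_nat_mul,
      Real.exp_neg, Real.exp_log hr0]
    have h3 : r⁻¹ ≤ 3 / 4 := by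
      rw [inv_le_comm₀ hr0 (by norm_num)]
      linarith [h.2]
    have h4 : 0 < r⁻¹ := inv_pos.2 hr0
    nlinarith

end Pool.Agent.H46.RD
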