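import Pool.Agent.H46.RD.Lin
import Pool.Agent.H15.Sig.Mom

/-!
# The quadratic form of the weight `w^q`
-/

open Complex MeasureTheory Set Filter Topology
open scoped ComplexConjugate Real

namespace Pool.Agent.H46.RD

open Pool.Agent.H15.Sig Pool.Agent.H36.SZ

noncomputable def w1 (ρ ψ : ℝ) : ℝ := 1 + 2 * ρ * Real.cos ψ + ρ ^ 2

theorem w1_pos {ρ : ℝ} (h0 : 0 ≤ ρ) (h1 : ρ < 1) (ψ : ℝ) : 0 < w1 ρ ψ := by
  unfold w1
  have h2 := Real.neg_one_le_cos ψ
  have h3 : 0 < (1 - ρ) ^ 2 := by apply pow_pos; linarith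
  nlinarith

theorem w1_cont {ρ : ℝ} (h0 : 0 ≤ ρ) (h1 : ρ < 1) (q : ℝ) : Continuous fun ψ => w1 ρ ψ ^ q := by
  have h2 : Continuous (w1 ρ) := by unfold w1; fun_prop
  exact h2.rpow_const fun ψ => Or.inl (w1_pos h0 h1 ψ).ne'

theorem w1_neg (ρ ψ : ℝ) : w1 ρ (-ψ) = w1 ρ ψ := by
  unfold w1; rw [Real.cos_neg]

/-- the Fourier coefficients of the weight -/
noncomputable def vc (q ρ : ℝ) (k : ℕ) : ℝ :=
  (2 * π)⁻¹ * ∫ ψ in (-π)..π, w1 ρ ψ ^ q * Real.cos (k * ψ)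

theorem ec_pow (m : ℕ) (ψ : ℝ) : ec ψ ^ m =
    ((Real.cos (m * ψ) : ℝ) : ℂ) - ((Real.sin (m * ψ) : ℝ) : ℂ) * I := by
  unfold ec
  rw [← Complex.exp_nat_mul]
  have : (m : ℂ) * -(ψ * I) = ((-(m * ψ) : ℝ) : ℂ) * I := by push_cast; ring
  rw [this, exp_mul_I, ← ofReal_cos, ← ofReal_sin, Real.cos_neg, Real.sin_neg]
  push_cast
  ring

theorem int_odd {f : ℝ → ℝ} (hf : Continuous f) (ho : ∀ x, f (-x) = -f x) :
    ∫ ψ in (-π)..π, f ψ = 0 := by
  rw [int_split hf]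
  have : ∀ θ : ℝ, f θ + f (-θ) = 0 := fun θ => by rw [ho]; ring
  simp [this]

theorem int_w_re {q ρ : ℝ} (h0 : 0 ≤ ρ) (h1 : ρ < 1) (c : ℂ) (m : ℕ) :
    ∫ ψ in (-π)..π, w1 ρ ψ ^ q * (c * ec ψ ^ m).re = 2 * π * (c.re * vc q ρ m) := by
  have hc := w1_cont h0 h1 q
  have hpi := Real.pi_pos
  have e : ∀ ψ : ℝ, w1 ρ ψ ^ q * (c * ec ψ ^ m).re =
      c.re * (w1 ρ ψ ^ q * Real.cos (m * ψ)) + c.im * (w1 ρ ψ ^ q * Real.sin (m * ψ)) := by
    intro ψ
    rw [ec_pow, mul_re, sub_re, sub_im, ofReal_re, ofReal_im, mul_re, mul_im, ofReal_re, ofReal_im,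
      I_re, I_im]
    ring
  have i1 : Continuous fun ψ : ℝ => w1 ρ ψ ^ q * Real.cos (m * ψ) := by fun_prop
  have i2 : Continuous fun ψ : ℝ => w1 ρ ψ ^ q * Real.sin (m * ψ) := by fun_prop
  have h2 : ∫ ψ in (-π)..π, w1 ρ ψ ^ q * Real.sin (m * ψ) = 0 := by
    refine int_odd i2 fun x => ?_
    rw [w1_neg, mul_neg, Real.sin_neg]
    ring
  have j1 : IntervalIntegrable (fun ψ : ℝ => c.re * (w1 ρ ψ ^ q * Real.cos (m * ψ)))
      volume (-π) π := (continuous_const.mul i1).intervalIntegrable _ _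
  have j2 : IntervalIntegrable (fun ψ : ℝ => c.im * (w1 ρ ψ ^ q * Real.sin (m * ψ)))
      volume (-π) π := (continuous_const.mul i2).intervalIntegrable _ _
  simp_rw [e]
  rw [intervalIntegral.integral_add j1 j2, intervalIntegral.integral_const_mul,
    intervalIntegral.integral_const_mul, h2]
  unfold vc
  field_simp
  ring

/-- Bessel's inequality -/
theorem bessel {q ρ : ℝ} (h0 : 0 ≤ ρ) (h1 : ρ < 1) (m : ℕ) :
    ∑ k ∈ Finset.range m, vc q ρ (k + 1) ^ 2 ≤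
      ((2 * π)⁻¹ * Mo (2 * q) ρ - vc q ρ 0 ^ 2) / 2 := by
  have hpi := Real.pi_pos
  have hab : (-π) < π := by linarith
  have hcont := w1_cont h0 h1 q
  set f : ℝ → ℂ := fun ψ => ((w1 ρ ψ ^ q : ℝ) : ℂ) with hf
  have hfc : Continuous f := Complex.continuous_ofReal.comp hcont
  have hL2 : MemLp f 2 (volume.restrict (Ioc (-π) π)) := by
    have : IsFiniteMeasure (volume.restrict (Ioc (-π) π)) := by
      constructor
      rw [Measure.restrict_apply_univ]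
      exact measure_Ioc_lt_top
    obtain ⟨M, hM⟩ := isCompact_Icc.exists_bound_of_continuousOn (s := Icc (-π) π)
      hfc.continuousOn
    refine MemLp.of_bound hfc.aestronglyMeasurable M ?_
    refine (ae_restrict_iff' measurableSet_Ioc).2 (Eventually.of_forall fun x hx => ?_)
    exact hM x (Ioc_subset_Icc_self hx)
  have hS := hasSum_sq_fourierCoeffOn hab hL2
  have hcoef : ∀ n : ℤ, ‖fourierCoeffOn hab f n‖ ^ 2 = vc q ρ n.natAbs ^ 2 := by
    intro n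
    rw [fourierCoeffOn_eq_integral]
    have e1 : (∫ x in (-π)..π, fourier (-n) (x : AddCircle (π - -π)) • f x) =
        ((∫ x in (-π)..π, w1 ρ x ^ q * Real.cos (n.natAbs * x) : ℝ) : ℂ) := by
      have e2 : ∀ x : ℝ, fourier (-n) (x : AddCircle (π - -π)) • f x =
          ((w1 ρ x ^ q * Real.cos (n * x) : ℝ) : ℂ) -
            ((w1 ρ x ^ q * Real.sin (n * x) : ℝ) : ℂ) * I := by
        intro x
        rw [fourier_coe_apply, hf, smul_eq_mul]
        have e3 : 2 * (π : ℂ) * I * ((-n : ℤ) : ℂ) * (x : ℂ) / ((π - -π : ℝ) : ℂ) =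
            ((-(n * x) : ℝ) : ℂ) * I := by
          have : (π : ℂ) ≠ 0 := by exact_mod_cast hpi.ne'
          push_cast
          field_simp
          ring
        rw [e3, exp_mul_I, ← ofReal_cos, ← ofReal_sin, Real.cos_neg, Real.sin_neg]
        push_cast
        ring
      have i1 : Continuous fun x : ℝ => w1 ρ x ^ q * Real.cos (n * x) := by fun_prop
      have i2 : Continuous fun x : ℝ => w1 ρ x ^ q * Real.sin (n * x) := by fun_prop
      have h2 : ∫ x in (-π)..π, w1 ρ x ^ q * Real.sin (n * x) = 0 := by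
        refine int_odd i2 fun x => ?_
        rw [w1_neg, mul_neg, Real.sin_neg]
        ring
      have j1 : IntervalIntegrable (fun x : ℝ => ((w1 ρ x ^ q * Real.cos (n * x) : ℝ) : ℂ))
          volume (-π) π := (Complex.continuous_ofReal.comp i1).intervalIntegrable _ _
      have j2 : IntervalIntegrable (fun x : ℝ => ((w1 ρ x ^ q * Real.sin (n * x) : ℝ) : ℂ) * I)
          volume (-π) π :=
        ((Complex.continuous_ofReal.comp i2).mul continuous_const).intervalIntegrable _ _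
      simp_rw [e2]
      rw [intervalIntegral.integral_sub j1 j2, intervalIntegral.integral_mul_const,
        intervalIntegral.integral_ofReal, intervalIntegral.integral_ofReal, h2]
      rw [ofReal_zero, zero_mul, sub_zero]
      congr 1
      refine intervalIntegral.integral_congr fun x _ => ?_
      have e4 : Real.cos ((n.natAbs : ℝ) * x) = Real.cos (n * x) := by
        have h3 : (n.natAbs : ℝ) = |(n : ℝ)| := by
          rw [Nat.cast_natAbs, Int.cast_abs]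
        rw [h3]
        rcases abs_choice (n : ℝ) with h4 | h4
        · rw [h4]
        · rw [h4, neg_mul, Real.cos_neg]
      simp only [e4]
    rw [e1]
    have e5 : ((1 / (π - -π)) • (((∫ x in (-π)..π, w1 ρ x ^ q *
        Real.cos (n.natAbs * x) : ℝ)) : ℂ)) = ((vc q ρ n.natAbs : ℝ) : ℂ) := by
      unfold vc
      rw [Complex.real_smul, ← ofReal_mul]
      congr 1
      rw [show π - -π = 2 * π by ring, one_div]
    rw [e5, Complex.norm_real, Real.norm_eq_abs, sq_abs]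
  have hQ : (π - -π)⁻¹ • ∫ x in (-π)..π, ‖f x‖ ^ 2 = (2 * π)⁻¹ * Mo (2 * q) ρ := by
    rw [smul_eq_mul, show π - -π = 2 * π by ring]
    congr 1
    unfold Mo
    refine intervalIntegral.integral_congr fun x _ => ?_
    have hw := w1_pos h0 h1 x
    simp only [hf]
    rw [Complex.norm_real, Real.norm_of_nonneg (Real.rpow_nonneg hw.le _), ← Real.rpow_natCast,
      ← Real.rpow_mul hw.le]
    congr 1
    push_cast
    ring
  rw [hQ] at hS
  simp_rw [hcoef] at hS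
  have h2 := hS.nat_add_neg
  have h3 := sum_le_hasSum (Finset.range (m + 1)) (fun n _ => by positivity) h2
  rw [Finset.sum_range_succ'] at h3
  have h4 : ∑ k ∈ Finset.range m, (vc q ρ (((k + 1 : ℕ) : ℤ)).natAbs ^ 2 +
      vc q ρ (-((k + 1 : ℕ) : ℤ)).natAbs ^ 2) = 2 * ∑ k ∈ Finset.range m, vc q ρ (k + 1) ^ 2 := by
    rw [Finset.mul_sum]
    refine Finset.sum_congr rfl fun k _ => ?_
    rw [Int.natAbs_neg, Int.natAbs_natCast]
    ring
  rw [h4] at h3
  simp only [Nat.cast_zero, neg_zero, Int.natAbs_zero] at h3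
  linarith

/-- the quadratic form -/
noncomputable def Tq (q ρ : ℝ) (a : ℕ → ℂ) (N : ℕ) : ℝ :=
  (2 * π)⁻¹ * ∫ ψ in (-π)..π, w1 ρ ψ ^ q * ‖∑ j ∈ Finset.range N, a j * ec ψ ^ j‖ ^ 2

theorem Tq_succ {q ρ : ℝ} (h0 : 0 ≤ ρ) (h1 : ρ < 1) (a : ℕ → ℂ) (N : ℕ) :
    Tq q ρ a (N + 1) = Tq q ρ a N + ‖a N‖ ^ 2 * vc q ρ 0 +
      ∑ j ∈ Finset.range N, 2 * ((conj (a j) * a N).re * vc q ρ (N - j)) := by
  have hpi := Real.pi_pos
  have hcont := w1_cont h0 h1 q
  have hS : ∀ M : ℕ, Continuous fun ψ : ℝ => ∑ j ∈ Finset.range M, a j * ec ψ ^ j := by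
    intro M
    refine continuous_finsetSum _ fun j _ => ?_
    exact continuous_const.mul (continuous_ec.pow j)
  have e : ∀ ψ : ℝ, w1 ρ ψ ^ q * ‖∑ j ∈ Finset.range (N + 1), a j * ec ψ ^ j‖ ^ 2 =
      (w1 ρ ψ ^ q * ‖∑ j ∈ Finset.range N, a j * ec ψ ^ j‖ ^ 2 +
        ‖a N‖ ^ 2 * (w1 ρ ψ ^ q * Real.cos ((0 : ℕ) * ψ))) +
      ∑ j ∈ Finset.range N, 2 * (w1 ρ ψ ^ q * ((conj (a j) * a N) * ec ψ ^ (N - j)).re) := by
    intro ψ
    rw [Finset.sum_range_succ]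
    set S : ℂ := ∑ j ∈ Finset.range N, a j * ec ψ ^ j with hSdef
    have h2 : ‖S + a N * ec ψ ^ N‖ ^ 2 = ‖S‖ ^ 2 + ‖a N‖ ^ 2 +
        2 * (conj S * (a N * ec ψ ^ N)).re := by
      have h3 : ‖a N * ec ψ ^ N‖ ^ 2 = ‖a N‖ ^ 2 := by
        rw [norm_mul, norm_pow, norm_ec, one_pow, mul_one]
      rw [← h3, ← normSq_eq_norm_sq, ← normSq_eq_norm_sq, ← normSq_eq_norm_sq, normSq_add]
      congr 2
      rw [← conj_re]
      congr 1
      rw [map_mul, Complex.conj_conj]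
    have h4 : conj S * (a N * ec ψ ^ N) = ∑ j ∈ Finset.range N,
        (conj (a j) * a N) * ec ψ ^ (N - j) := by
      rw [hSdef, map_sum, Finset.sum_mul]
      refine Finset.sum_congr rfl fun j hj => ?_
      have hj' : j ≤ N := (Finset.mem_range.1 hj).le
      have h5 : ec ψ ^ N = ec ψ ^ (N - j) * ec ψ ^ j := by
        rw [← pow_add]; congr 1; omega
      have h6 : conj (ec ψ) ^ j * ec ψ ^ j = 1 := by
        rw [← mul_pow, conj_ec, inv_mul_cancel₀ (ec_ne_zero ψ), one_pow]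
      rw [map_mul, map_pow, h5]
      linear_combination (conj (a j) * a N * ec ψ ^ (N - j)) * h6
    rw [h2, h4, re_sum]
    simp only [Nat.cast_zero, zero_mul, Real.cos_zero, mul_one]
    rw [mul_add, mul_add, Finset.mul_sum, Finset.mul_sum]
    congr 1
    · ring
    · refine Finset.sum_congr rfl fun j _ => ?_
      ring
  unfold Tq
  simp_rw [e]
  have i1 : Continuous fun ψ : ℝ => w1 ρ ψ ^ q * ‖∑ j ∈ Finset.range N, a j * ec ψ ^ j‖ ^ 2 :=
    hcont.mul ((hS N).norm.pow 2)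
  have i2 : Continuous fun ψ : ℝ => ‖a N‖ ^ 2 * (w1 ρ ψ ^ q * Real.cos ((0 : ℕ) * ψ)) := by
    fun_prop
  have i3 : ∀ j, Continuous fun ψ : ℝ =>
      2 * (w1 ρ ψ ^ q * ((conj (a j) * a N) * ec ψ ^ (N - j)).re) := by
    intro j
    refine continuous_const.mul (hcont.mul (Complex.continuous_re.comp ?_))
    exact continuous_const.mul (continuous_ec.pow _)
  have j1 : IntervalIntegrable (fun ψ : ℝ => w1 ρ ψ ^ q *
      ‖∑ j ∈ Finset.range N, a j * ec ψ ^ j‖ ^ 2 +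
      ‖a N‖ ^ 2 * (w1 ρ ψ ^ q * Real.cos ((0 : ℕ) * ψ))) volume (-π) π :=
    (i1.add i2).intervalIntegrable _ _
  have j2 : IntervalIntegrable (fun ψ : ℝ => ∑ j ∈ Finset.range N,
      2 * (w1 ρ ψ ^ q * ((conj (a j) * a N) * ec ψ ^ (N - j)).re)) volume (-π) π :=
    (continuous_finsetSum _ fun j _ => i3 j).intervalIntegrable _ _
  rw [intervalIntegral.integral_add j1 j2,
    intervalIntegral.integral_add (i1.intervalIntegrable _ _) (i2.intervalIntegrable _ _),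
    intervalIntegral.integral_finsetSum (fun j _ => (i3 j).intervalIntegrable _ _)]
  have h3 : ∀ j, ∫ ψ in (-π)..π, 2 * (w1 ρ ψ ^ q * ((conj (a j) * a N) * ec ψ ^ (N - j)).re) =
      2 * π * (2 * ((conj (a j) * a N).re * vc q ρ (N - j))) := by
    intro j
    rw [intervalIntegral.integral_const_mul, int_w_re h0 h1]
    ring
  simp_rw [h3]
  rw [← Finset.mul_sum, intervalIntegral.integral_const_mul,
    show vc q ρ 0 = (2 * π)⁻¹ * ∫ ψ in (-π)..π, w1 ρ ψ ^ q * Real.cos ((0 : ℕ) * ψ) from rfl]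
  have h5 : (2 * π)⁻¹ * (2 * π) = 1 := inv_mul_cancel₀ (by positivity)
  linear_combination (∑ i ∈ Finset.range N, 2 * ((conj (a i) * a N).re * vc q ρ (N - i))) * h5

/-- the bound by Cauchy and Schwarz, with weights `g` -/
theorem Tq_le {q ρ : ℝ} (h0 : 0 ≤ ρ) (h1 : ρ < 1) (a : ℕ → ℂ) {g : ℕ → ℝ} (hg : ∀ i, 0 < g i)
    {A : ℝ} (hA : ∀ m, ∑ k ∈ Finset.range m, vc q ρ (k + 1) ^ 2 ≤ A) (N : ℕ) :
    Tq q ρ a N ≤ ∑ j ∈ Finset.range N, ‖a j‖ ^ 2 *
      (vc q ρ 0 + g j * A + ∑ i ∈ Finset.range j, (g i)⁻¹) := by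
  have h2 : ∀ N : ℕ, Tq q ρ a N ≤ ∑ j ∈ Finset.range N, (‖a j‖ ^ 2 * vc q ρ 0 +
      ∑ i ∈ Finset.range j, (vc q ρ (j - i) ^ 2 * (g i * ‖a i‖ ^ 2) + ‖a j‖ ^ 2 * (g i)⁻¹)) := by
    intro N
    induction N with
    | zero => simp [Tq]
    | succ N ih =>
      rw [Tq_succ h0 h1, Finset.sum_range_succ]
      have h3 : ∑ j ∈ Finset.range N, 2 * ((conj (a j) * a N).re * vc q ρ (N - j)) ≤
          ∑ i ∈ Finset.range N, (vc q ρ (N - i) ^ 2 * (g i * ‖a i‖ ^ 2) +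
            ‖a N‖ ^ 2 * (g i)⁻¹) := by
        refine Finset.sum_le_sum fun j _ => ?_
        have h4 : |(conj (a j) * a N).re| ≤ ‖a j‖ * ‖a N‖ := by
          refine (abs_re_le_norm _).trans ?_
          rw [norm_mul, RCLike.norm_conj]
        have h5 : (conj (a j) * a N).re * vc q ρ (N - j) ≤
            ‖a j‖ * ‖a N‖ * |vc q ρ (N - j)| := by
          refine (le_abs_self _).trans ?_
          rw [abs_mul]
          exact mul_le_mul_of_nonneg_right h4 (abs_nonneg _)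
        have hgj := hg j
        have h6 : 2 * (‖a j‖ * ‖a N‖ * |vc q ρ (N - j)|) ≤
            |vc q ρ (N - j)| ^ 2 * (g j * ‖a j‖ ^ 2) + ‖a N‖ ^ 2 * (g j)⁻¹ := by
          have h7 := sq_nonneg (|vc q ρ (N - j)| * ‖a j‖ * g j - ‖a N‖)
          have h8 : |vc q ρ (N - j)| ^ 2 * (g j * ‖a j‖ ^ 2) + ‖a N‖ ^ 2 * (g j)⁻¹ -
              2 * (‖a j‖ * ‖a N‖ * |vc q ρ (N - j)|) =
              (|vc q ρ (N - j)| * ‖a j‖ * g j - ‖a N‖) ^ 2 * (g j)⁻¹ := by
            field_simp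
            ring
          have h9 : 0 ≤ (|vc q ρ (N - j)| * ‖a j‖ * g j - ‖a N‖) ^ 2 * (g j)⁻¹ := by
            positivity
          linarith
        rw [sq_abs] at h6
        linarith
      linarith
  refine (h2 N).trans (le_of_eq_of_le (b := ∑ j ∈ Finset.range N, ‖a j‖ ^ 2 *
    (vc q ρ 0 + ∑ i ∈ Finset.range j, (g i)⁻¹) + ∑ j ∈ Finset.range N,
      ∑ i ∈ Finset.range j, vc q ρ (j - i) ^ 2 * (g i * ‖a i‖ ^ 2)) ?_ ?_)
  · rw [← Finset.sum_add_distrib]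
    refine Finset.sum_congr rfl fun j _ => ?_
    rw [Finset.sum_add_distrib, mul_add, Finset.mul_sum]
    ring
  · have h3 : ∑ j ∈ Finset.range N, ∑ i ∈ Finset.range j,
        vc q ρ (j - i) ^ 2 * (g i * ‖a i‖ ^ 2) ≤ ∑ i ∈ Finset.range N, (g i * ‖a i‖ ^ 2) * A := by
      have h4 := Finset.sum_Ico_Ico_comm' 0 N
        (fun i j : ℕ => vc q ρ (j - i) ^ 2 * (g i * ‖a i‖ ^ 2))
      rw [Finset.range_eq_Ico, ← Finset.range_eq_Ico] at *
      simp only [← Finset.range_eq_Ico] at h4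
      rw [← h4]
      refine Finset.sum_le_sum fun i hi => ?_
      rw [← Finset.sum_mul, mul_comm]
      refine mul_le_mul_of_nonneg_left ?_ (mul_nonneg (hg i).le (by positivity))
      rw [Finset.sum_Ico_eq_sum_range]
      refine le_trans (le_of_eq ?_) (hA (N - (i + 1)))
      refine Finset.sum_congr rfl fun k _ => ?_
      congr 2
      omega
    have h5 : ∑ j ∈ Finset.range N, ‖a j‖ ^ 2 *
        (vc q ρ 0 + g j * A + ∑ i ∈ Finset.range j, (g i)⁻¹) =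
        ∑ j ∈ Finset.range N, ‖a j‖ ^ 2 * (vc q ρ 0 + ∑ i ∈ Finset.range j, (g i)⁻¹) +
        ∑ i ∈ Finset.range N, (g i * ‖a i‖ ^ 2) * A := by
      rw [← Finset.sum_add_distrib]
      refine Finset.sum_congr rfl fun j _ => ?_
      ring
    rw [h5]
    linarith

theorem vc_zero_ge {q ρ : ℝ} (h0 : 0 ≤ ρ) (h1 : ρ < 1) : 1 ≤ vc q ρ 0 := by
  have hpi := Real.pi_pos
  have h2 : ∫ ψ in (-π)..π, w1 ρ ψ ^ q * Real.cos ((0 : ℕ) * ψ) = Mo q ρ := by
    unfold Mo w1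
    refine intervalIntegral.integral_congr fun x _ => ?_
    simp
  unfold vc
  rw [h2]
  have h3 := sum_le_hasSum {0} (fun k _ => by positivity) (Mo_hasSum q h0 h1)
  rw [Finset.sum_singleton, Ring.choose_zero_right] at h3
  simp only [norm_one, one_pow, mul_one, mul_zero, pow_zero] at h3
  rw [inv_mul_eq_div, le_div_iff₀ (by positivity)]
  linarith

theorem vc_zero_sq {q ρ : ℝ} (h0 : 0 ≤ ρ) (h1 : ρ < 1) :
    vc q ρ 0 ^ 2 ≤ (2 * π)⁻¹ * Mo (2 * q) ρ := by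
  have h2 := bessel (q := q) h0 h1 0
  simp only [Finset.range_zero, Finset.sum_empty] at h2
  linarith

/-- the two coefficients -/
theorem coef_le {v Q : ℝ} (h1 : 1 ≤ v) (h2 : v ^ 2 ≤ Q) :
    v / 2 + (Q - v ^ 2) / 2 / (2 * v) ≤ (1 + Q) / 4 := by
  have hv : 0 < v := by linarith
  have h3 : (1 + Q) / 4 - (v / 2 + (Q - v ^ 2) / 2 / (2 * v)) =
      (v - 1) * (Q - v) / (4 * v) := by
    field_simp
    ring
  have h4 : 0 ≤ (v - 1) * (Q - v) / (4 * v) := by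
    apply div_nonneg _ (by linarith)
    apply mul_nonneg (by linarith)
    nlinarith
  linarith

/-- the form on odd polynomials (after division by `u`) -/
theorem Tq_odd {q ρ : ℝ} (h0 : 0 ≤ ρ) (h1 : ρ < 1) (a : ℕ → ℂ) (N : ℕ) :
    Tq q ρ a (N + 1) ≤ (2 * π)⁻¹ * Mo (2 * q) ρ * ‖a 0‖ ^ 2 +
      (1 + (2 * π)⁻¹ * Mo (2 * q) ρ) / 4 *
        ∑ j ∈ Finset.range N, (2 * (j : ℝ) + 3) * ‖a (j + 1)‖ ^ 2 := by
  set Q : ℝ := (2 * π)⁻¹ * Mo (2 * q) ρ with hQ
  set v : ℝ := vc q ρ 0 with hv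
  have hv1 : 1 ≤ v := vc_zero_ge h0 h1
  have hv2 : v ^ 2 ≤ Q := vc_zero_sq h0 h1
  have hv0 : 0 < v := by linarith
  set g : ℕ → ℝ := fun i => if i = 0 then 2 / v else (2 * (i : ℝ) + 1) / (2 * v) with hg
  have hgpos : ∀ i, 0 < g i := by
    intro i
    simp only [hg]
    split_ifs <;> positivity
  have h2 := Tq_le h0 h1 a hgpos (A := (Q - v ^ 2) / 2) (fun m => bessel h0 h1 m) (N + 1)
  refine h2.trans ?_
  rw [Finset.sum_range_succ']
  have h3 : ‖a 0‖ ^ 2 * (v + g 0 * ((Q - v ^ 2) / 2) + ∑ i ∈ Finset.range 0, (g i)⁻¹) ≤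
      Q * ‖a 0‖ ^ 2 := by
    have e : v + g 0 * ((Q - v ^ 2) / 2) + ∑ i ∈ Finset.range 0, (g i)⁻¹ = Q / v := by
      simp only [hg, if_true, Finset.range_zero, Finset.sum_empty]
      field_simp
      ring
    rw [e, mul_comm]
    refine mul_le_mul_of_nonneg_right ?_ (by positivity)
    rw [div_le_iff₀ hv0]
    nlinarith
  have h4 : ∑ j ∈ Finset.range N, ‖a (j + 1)‖ ^ 2 * (v + g (j + 1) * ((Q - v ^ 2) / 2) +
      ∑ i ∈ Finset.range (j + 1), (g i)⁻¹) ≤ (1 + Q) / 4 *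
        ∑ j ∈ Finset.range N, (2 * (j : ℝ) + 3) * ‖a (j + 1)‖ ^ 2 := by
    rw [Finset.mul_sum]
    refine Finset.sum_le_sum fun j _ => ?_
    have h5 : ∑ i ∈ Finset.range (j + 1), (g i)⁻¹ ≤ v / 2 + v * j := by
      rw [Finset.sum_range_succ']
      have h6 : (g 0)⁻¹ = v / 2 := by
        simp only [hg, if_true]
        rw [inv_div]
      have h7 : ∑ i ∈ Finset.range j, (g (i + 1))⁻¹ ≤ ∑ _i ∈ Finset.range j, v := by
        refine Finset.sum_le_sum fun i _ => ?_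
        simp only [hg, Nat.add_eq_zero_iff, one_ne_zero, and_false, if_false]
        rw [inv_div, div_le_iff₀ (by positivity)]
        push_cast
        have : (0 : ℝ) ≤ i := Nat.cast_nonneg i
        nlinarith
      rw [Finset.sum_const, Finset.card_range, nsmul_eq_mul] at h7
      linarith
    have h8 : v + g (j + 1) * ((Q - v ^ 2) / 2) + ∑ i ∈ Finset.range (j + 1), (g i)⁻¹ ≤
        (1 + Q) / 4 * (2 * (j : ℝ) + 3) := by
      have h9 : g (j + 1) = (2 * (j : ℝ) + 3) / (2 * v) := by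
        simp only [hg, Nat.add_eq_zero_iff, one_ne_zero, and_false, if_false]
        push_cast
        ring
      have h10 := coef_le hv1 hv2
      have h11 : (0 : ℝ) ≤ j := Nat.cast_nonneg j
      have h12 : v + g (j + 1) * ((Q - v ^ 2) / 2) + (v / 2 + v * j) =
          (v / 2 + (Q - v ^ 2) / 2 / (2 * v)) * (2 * (j : ℝ) + 3) := by
        rw [h9]
        field_simp
        ring
      have h13 := mul_le_mul_of_nonneg_right h10 (by positivity : (0:ℝ) ≤ 2 * (j : ℝ) + 3)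
      linarith
    calc ‖a (j + 1)‖ ^ 2 * (v + g (j + 1) * ((Q - v ^ 2) / 2) +
          ∑ i ∈ Finset.range (j + 1), (g i)⁻¹) ≤
        ‖a (j + 1)‖ ^ 2 * ((1 + Q) / 4 * (2 * (j : ℝ) + 3)) :=
          mul_le_mul_of_nonneg_left h8 (by positivity)
      _ = _ := by ring
  linarith

/-- the form on even polynomials (after division by `u^2`) -/
theorem Tq_even {q ρ : ℝ} (h0 : 0 ≤ ρ) (h1 : ρ < 1) (a : ℕ → ℂ) (N : ℕ) :
    Tq q ρ a N ≤ (1 + (2 * π)⁻¹ * Mo (2 * q) ρ) / 4 *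
        ∑ j ∈ Finset.range N, (2 * (j : ℝ) + 2) * ‖a j‖ ^ 2 := by
  set Q : ℝ := (2 * π)⁻¹ * Mo (2 * q) ρ with hQ
  set v : ℝ := vc q ρ 0 with hv
  have hv1 : 1 ≤ v := vc_zero_ge h0 h1
  have hv2 : v ^ 2 ≤ Q := vc_zero_sq h0 h1
  have hv0 : 0 < v := by linarith
  set g : ℕ → ℝ := fun i => ((i : ℝ) + 1) / v with hg
  have hgpos : ∀ i, 0 < g i := by
    intro i
    simp only [hg]
    positivity
  have h2 := Tq_le h0 h1 a hgpos (A := (Q - v ^ 2) / 2) (fun m => bessel h0 h1 m) N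
  refine h2.trans ?_
  rw [Finset.mul_sum]
  refine Finset.sum_le_sum fun j _ => ?_
  have h5 : ∑ i ∈ Finset.range j, (g i)⁻¹ ≤ v * j := by
    have h7 : ∑ i ∈ Finset.range j, (g i)⁻¹ ≤ ∑ _i ∈ Finset.range j, v := by
      refine Finset.sum_le_sum fun i _ => ?_
      simp only [hg]
      rw [inv_div, div_le_iff₀ (by positivity)]
      have : (0 : ℝ) ≤ i := Nat.cast_nonneg i
      nlinarith
    rw [Finset.sum_const, Finset.card_range, nsmul_eq_mul] at h7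
    linarith
  have h8 : v + g j * ((Q - v ^ 2) / 2) + ∑ i ∈ Finset.range j, (g i)⁻¹ ≤
      (1 + Q) / 4 * (2 * (j : ℝ) + 2) := by
    have h10 := coef_le hv1 hv2
    have h11 : (0 : ℝ) ≤ j := Nat.cast_nonneg j
    have h12 : v + g j * ((Q - v ^ 2) / 2) + v * j =
        (v / 2 + (Q - v ^ 2) / 2 / (2 * v)) * (2 * (j : ℝ) + 2) := by
      simp only [hg]
      field_simp
      ring
    have h13 := mul_le_mul_of_nonneg_right h10 (by positivity : (0:ℝ) ≤ 2 * (j : ℝ) + 2)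
    linarith
  calc ‖a j‖ ^ 2 * (v + g j * ((Q - v ^ 2) / 2) + ∑ i ∈ Finset.range j, (g i)⁻¹) ≤
      ‖a j‖ ^ 2 * ((1 + Q) / 4 * (2 * (j : ℝ) + 2)) :=
        mul_le_mul_of_nonneg_left h8 (by positivity)
    _ = _ := by ring

end Pool.Agent.H46.RD
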